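import Mathlib

set_option autoImplicit false

/-! # The ring generated by the dilates with small sumset

For a finite set `B` of the field with `p` elements the set of the `x` with `|B + x B| ≤ R |B|` is closed
under the ring operations, with `R` replaced by a bounded power of `R`.  Hence if it contains a set of
`p ^ δ` elements, it is everything for a bounded power of `R` (Glibichuk-Konyagin). -/

open Finset
open scoped Pointwise

namespace Pool.Agent.Run7.h90.BGK

/-- `|B + x B| ≤ R |B|`. -/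
def Sm {F : Type*} [Field F] [DecidableEq F] (B : Finset F) (R : ℝ) (x : F) : Prop :=
  ((B + x • B).card : ℝ) ≤ R * B.card

section field

variable {F : Type*} [Field F] [DecidableEq F] {B : Finset F} {R S : ℝ} {x y : F}

theorem card_smul' (x : F) (hx : x ≠ 0) (A : Finset F) : (x • A).card = A.card :=
  Finset.card_image_of_injective _ (mul_right_injective₀ hx)

theorem Sm.mono (h : Sm B R x) (hRS : R ≤ S) : Sm B S x :=
  h.trans (mul_le_mul_of_nonneg_right hRS (Nat.cast_nonneg _))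

theorem smul_addB (x : F) (A C : Finset F) : x • (A + C) = x • A + x • C :=
  image_image₂_distrib (smul_add x)

theorem smul_subB (x : F) (A C : Finset F) : x • (A - C) = x • A - x • C :=
  image_image₂_distrib (smul_sub x)

theorem smul_smul_B (x y : F) (A : Finset F) : x • (y • A) = (x * y) • A := by
  rw [smul_smul]

theorem zero_smul_B (hB : B.Nonempty) : (0 : F) • B = {0} := by
  ext z
  rw [mem_smul_finset, mem_singleton]
  constructor
  · rintro ⟨b, -, rfl⟩; simp
  · rintro rfl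
    obtain ⟨b, hb⟩ := hB
    exact ⟨b, hb, by simp⟩

theorem Sm.zero (hB : B.Nonempty) (hR : 1 ≤ R) : Sm B R (0 : F) := by
  unfold Sm
  rw [zero_smul_B hB]
  have : (B + {(0 : F)}).card = B.card := by
    rw [add_singleton]
    simp
  rw [this]
  have h0 : (0 : ℝ) ≤ B.card := Nat.cast_nonneg _
  nlinarith

theorem Sm.inv (hx : x ≠ 0) (h : Sm B R x) : Sm B R x⁻¹ := by
  unfold Sm at h ⊢
  have h1 : x • (B + x⁻¹ • B) = B + x • B := by
    rw [smul_addB, smul_smul_B, mul_inv_cancel₀ hx, one_smul, add_comm]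
  rw [← card_smul' x hx (B + x⁻¹ • B), h1]
  exact h

theorem Sm.mul (hB : B.Nonempty) (hR : 1 ≤ R) (h1 : Sm B R x) (h2 : Sm B R y) : Sm B (R ^ 2) (x * y) := by
  have hR2 : (1 : ℝ) ≤ R ^ 2 := one_le_pow₀ hR
  rcases eq_or_ne x 0 with rfl | hx
  · rw [zero_mul]
    exact Sm.zero hB hR2
  unfold Sm at h1 h2 ⊢
  have hBc : (0 : ℝ) < B.card := by exact_mod_cast hB.card_pos
  have h3 := ruzsa_triangle_inequality_add_add_add B (x • B) ((x * y) • B)
  rw [card_smul' x hx] at h3
  have h4 : x • B + (x * y) • B = x • (B + y • B) := by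
    rw [smul_addB, smul_smul_B]
  rw [h4, card_smul' x hx] at h3
  have h5 : ((B + (x * y) • B).card : ℝ) * B.card ≤ ((B + x • B).card : ℝ) * (B + y • B).card := by
    exact_mod_cast h3
  have h6 : ((B + x • B).card : ℝ) * (B + y • B).card ≤ (R * B.card) * (R * B.card) := by gcongr
  refine le_of_mul_le_mul_right ?_ hBc
  calc _ ≤ _ := h5
    _ ≤ _ := h6
    _ = _ := by ring

theorem Sm.neg (hB : B.Nonempty) (hR : 1 ≤ R) (hd : ((B - B).card : ℝ) ≤ R * B.card) (h1 : Sm B R x) :
    Sm B (R ^ 2) (-x) := by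
  have hR2 : (1 : ℝ) ≤ R ^ 2 := one_le_pow₀ hR
  rcases eq_or_ne x 0 with rfl | hx
  · rw [neg_zero]
    exact Sm.zero hB hR2
  unfold Sm at h1 ⊢
  have hBc : (0 : ℝ) < B.card := by exact_mod_cast hB.card_pos
  have h3 := ruzsa_triangle_inequality_sub_add_sub B (x • B) (x • B)
  have h4 : x • B - x • B = x • (B - B) := by rw [smul_subB]
  rw [h4, card_smul' x hx, card_smul' x hx] at h3
  have h7 : B + (-x) • B = B - x • B := by
    rw [sub_eq_add_neg]
    congr 1
    ext z
    rw [mem_smul_finset, mem_neg]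
    constructor
    · rintro ⟨b, hb, rfl⟩
      exact ⟨x • b, smul_mem_smul_finset hb, by simp⟩
    · rintro ⟨y, hy, rfl⟩
      obtain ⟨b, hb, rfl⟩ := mem_smul_finset.1 hy
      exact ⟨b, hb, by simp⟩
  rw [h7]
  have h5 : ((B - x • B).card : ℝ) * B.card ≤ ((B + x • B).card : ℝ) * (B - B).card := by
    exact_mod_cast h3
  refine le_of_mul_le_mul_right ?_ hBc
  calc _ ≤ _ := h5
    _ ≤ (R * B.card) * (R * B.card) := by gcongr
    _ = _ := by ring

theorem Sm.add (hB : B.Nonempty) (hR : 1 ≤ R) (hs : ((B + B).card : ℝ) ≤ R * B.card)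
    (h1 : Sm B R x) (h2 : Sm B R y) : Sm B (R ^ 4) (x + y) := by
  have hR4 : R ≤ R ^ 4 := by
    calc R = R ^ 1 := (pow_one R).symm
      _ ≤ R ^ 4 := pow_le_pow_right₀ hR (by norm_num)
  rcases eq_or_ne x 0 with rfl | hx
  · rw [zero_add]
    exact h2.mono hR4
  have hBc : (0 : ℝ) < B.card := by exact_mod_cast hB.card_pos
  -- the minimising subset
  obtain ⟨U, hU, hUmin⟩ := exists_min_image (B.powerset.erase ∅) (fun U => ((U + x • B).card : ℚ) / U.card)
    ⟨B, mem_erase_of_ne_of_mem hB.ne_empty (mem_powerset_self _)⟩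
  rw [mem_erase, mem_powerset] at hU
  obtain ⟨hU0, hUB⟩ := hU
  have hUne : U.Nonempty := nonempty_iff_ne_empty.2 hU0
  have hUc : (0 : ℚ) < U.card := by exact_mod_cast hUne.card_pos
  have hpet : ∀ A' ⊆ U, (U + x • B).card * A'.card ≤ (A' + x • B).card * U.card := by
    intro A' hA'
    rcases A'.eq_empty_or_nonempty with rfl | hA'ne
    · simp
    have h := hUmin A' (mem_erase_of_ne_of_mem hA'ne.ne_empty (mem_powerset.2 (hA'.trans hUB)))
    have hA'c : (0 : ℚ) < A'.card := by exact_mod_cast hA'ne.card_pos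
    rw [div_le_div_iff₀ hUc hA'c] at h
    exact_mod_cast h
  have hP := pluennecke_petridis_inequality_add (A := U) (B := x • B) (y • B) hpet
  have hmin := hUmin B (mem_erase_of_ne_of_mem hB.ne_empty (mem_powerset_self _))
  have hBq : (0 : ℚ) < B.card := by exact_mod_cast hB.card_pos
  rw [div_le_div_iff₀ hUc hBq] at hmin
  have hUr : (0 : ℝ) < U.card := by exact_mod_cast hUne.card_pos
  have e1 : ((U + x • B).card : ℝ) * B.card ≤ ((B + x • B).card : ℝ) * U.card := by exact_mod_cast hmin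
  have e2 : ((y • B + U + x • B).card : ℝ) * U.card ≤ ((U + x • B).card : ℝ) * (y • B + U).card := by
    exact_mod_cast hP
  have e3 : ((U + x • B).card : ℝ) ≤ R * U.card := by
    refine le_of_mul_le_mul_right ?_ hBc
    calc _ ≤ _ := e1
      _ ≤ (R * B.card) * U.card := by unfold Sm at h1; gcongr
      _ = _ := by ring
  have e4 : ((y • B + U).card : ℝ) ≤ R * B.card := by
    have : (y • B + U).card ≤ (B + y • B).card := by
      rw [add_comm B]
      exact card_le_card (add_subset_add_left hUB)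
    calc ((y • B + U).card : ℝ) ≤ ((B + y • B).card : ℝ) := by exact_mod_cast this
      _ ≤ _ := h2
  have e5 : ((y • B + U + x • B).card : ℝ) ≤ R ^ 2 * B.card := by
    refine le_of_mul_le_mul_right ?_ hUr
    calc _ ≤ _ := e2
      _ ≤ (R * U.card) * (R * B.card) := by gcongr
      _ = _ := by ring
  have e6 : (B.card : ℝ) ≤ R * U.card := by
    have : (x • B).card ≤ (U + x • B).card := card_le_card_add_left hUne
    rw [card_smul' x hx] at this
    calc (B.card : ℝ) ≤ ((U + x • B).card : ℝ) := by exact_mod_cast this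
      _ ≤ _ := e3
  have e7 : ((B + (x • B + y • B)).card : ℝ) * U.card ≤ ((B + U).card : ℝ) * (U + (x • B + y • B)).card := by
    exact_mod_cast ruzsa_triangle_inequality_add_add_add B U (x • B + y • B)
  have e8 : U + (x • B + y • B) = y • B + U + x • B := by
    rw [add_comm (y • B) U, add_assoc, add_comm (y • B) (x • B)]
  rw [e8] at e7
  have e9 : ((B + U).card : ℝ) ≤ R * B.card := by
    have : (B + U).card ≤ (B + B).card := card_le_card (add_subset_add_left hUB)
    calc ((B + U).card : ℝ) ≤ ((B + B).card : ℝ) := by exact_mod_cast this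
      _ ≤ _ := hs
  have hsub : B + (x + y) • B ⊆ B + (x • B + y • B) := by
    apply add_subset_add_left
    intro z hz
    obtain ⟨b, hb, rfl⟩ := mem_smul_finset.1 hz
    rw [add_smul]
    exact add_mem_add (smul_mem_smul_finset hb) (smul_mem_smul_finset hb)
  have e10 : ((B + (x + y) • B).card : ℝ) ≤ ((B + (x • B + y • B)).card : ℝ) := by
    exact_mod_cast card_le_card hsub
  unfold Sm
  refine le_of_mul_le_mul_right ?_ hUr
  have hR0 : 0 ≤ R := by linarith
  calc ((B + (x + y) • B).card : ℝ) * U.card ≤ ((B + (x • B + y • B)).card : ℝ) * U.card := by gcongr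
    _ ≤ ((B + U).card : ℝ) * (y • B + U + x • B).card := e7
    _ ≤ (R * B.card) * (R ^ 2 * B.card) := by gcongr
    _ = R ^ 3 * B.card * B.card := by ring
    _ ≤ R ^ 3 * B.card * (R * U.card) := by gcongr
    _ = R ^ 4 * B.card * U.card := by ring

theorem Sm.sub (hB : B.Nonempty) (hR : 1 ≤ R) (hs : ((B + B).card : ℝ) ≤ R * B.card)
    (hd : ((B - B).card : ℝ) ≤ R * B.card) (h1 : Sm B R x) (h2 : Sm B R y) : Sm B (R ^ 8) (x - y) := by
  have hR2 : R ≤ R ^ 2 := by
    calc R = R ^ 1 := (pow_one R).symm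
      _ ≤ R ^ 2 := pow_le_pow_right₀ hR (by norm_num)
  have h3 := h2.neg hB hR hd
  have hBc : (0 : ℝ) ≤ B.card := Nat.cast_nonneg _
  have h4 := Sm.add hB (one_le_pow₀ hR) (hs.trans (mul_le_mul_of_nonneg_right hR2 hBc)) (h1.mono hR2) h3
  rw [← sub_eq_add_neg] at h4
  refine h4.mono (le_of_eq ?_)
  rw [← pow_mul]

end field

variable {p : ℕ} [Fact p.Prime]

/-- one step: either all quotients of differences, or a set of size `|T| ^ 2` -/
theorem step (T : Finset (ZMod p)) :
    (∀ x : ZMod p, ∃ a ∈ T, ∃ b ∈ T, ∃ c ∈ T, ∃ d ∈ T, c ≠ d ∧ x = (a - b) / (c - d)) ∨ T.card ≤ 1 ∨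
    ∃ a ∈ T, ∃ b ∈ T, ∃ c ∈ T, ∃ d ∈ T, c ≠ d ∧
      ((T ×ˢ T).image (fun w : ZMod p × ZMod p => ((a - b) + (c - d)) * w.1 + (c - d) * w.2)).card = T.card ^ 2 := by
  classical
  by_cases hcard : T.card ≤ 1
  · exact Or.inr (Or.inl hcard)
  push Not at hcard
  by_cases hQ : ∀ x : ZMod p, ∃ a ∈ T, ∃ b ∈ T, ∃ c ∈ T, ∃ d ∈ T, c ≠ d ∧ x = (a - b) / (c - d)
  · exact Or.inl hQ
  refine Or.inr (Or.inr ?_)
  obtain ⟨c₀, hc₀, d₀, hd₀, hcd₀⟩ := Finset.one_lt_card.1 hcard
  -- there is x in Q with x + 1 not in Q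
  have hex : ∃ x : ZMod p, (∃ a ∈ T, ∃ b ∈ T, ∃ c ∈ T, ∃ d ∈ T, c ≠ d ∧ x = (a - b) / (c - d)) ∧
      ¬ (∃ a ∈ T, ∃ b ∈ T, ∃ c ∈ T, ∃ d ∈ T, c ≠ d ∧ x + 1 = (a - b) / (c - d)) := by
    by_contra hno
    apply hQ
    have hall : ∀ n : ℕ, ∃ a ∈ T, ∃ b ∈ T, ∃ c ∈ T, ∃ d ∈ T, c ≠ d ∧ ((n : ℕ) : ZMod p) = (a - b) / (c - d) := by
      intro n
      induction n with
      | zero => exact ⟨c₀, hc₀, c₀, hc₀, c₀, hc₀, d₀, hd₀, hcd₀, by simp⟩
      | succ n ih =>
        obtain ⟨a, ha, b, hb, c, hc, d, hd, hcd, h⟩ := ih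
        rw [Nat.cast_succ]
        by_contra hno2
        exact hno ⟨_, ⟨a, ha, b, hb, c, hc, d, hd, hcd, h⟩, hno2⟩
    intro x
    have := hall x.val
    rwa [ZMod.natCast_zmod_val] at this
  obtain ⟨x, ⟨a, ha, b, hb, c, hc, d, hd, hcd, hx⟩, hx1⟩ := hex
  refine ⟨a, ha, b, hb, c, hc, d, hd, hcd, ?_⟩
  rw [card_image_of_injOn, card_product, sq]
  intro w hw w' hw' hww
  simp only [mem_coe, mem_product] at hw hw'
  simp only at hww
  have hv : c - d ≠ 0 := sub_ne_zero.2 hcd
  have h1 : ((a - b) + (c - d)) * (w.1 - w'.1) = (c - d) * (w'.2 - w.2) := by linear_combination hww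
  by_cases hw1 : w.1 = w'.1
  · rw [hw1, sub_self, mul_zero] at h1
    have h2 : w'.2 - w.2 = 0 := by
      rcases mul_eq_zero.1 h1.symm with h | h
      · exact absurd h hv
      · exact h
    exact Prod.ext hw1 (sub_eq_zero.1 h2).symm
  · exfalso
    apply hx1
    refine ⟨w'.2, hw'.2, w.2, hw.2, w.1, hw.1, w'.1, hw'.1, hw1, ?_⟩
    have hs : w.1 - w'.1 ≠ 0 := sub_ne_zero.2 hw1
    rw [hx, eq_div_iff hs]
    field_simp
    linear_combination h1

theorem grow (B : Finset (ZMod p)) (hB : B.Nonempty) (m : ℕ) :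
    ∀ (R : ℝ), 1 ≤ R → ((B + B).card : ℝ) ≤ R * B.card → ((B - B).card : ℝ) ≤ R * B.card →
    ∀ T : Finset (ZMod p), (∀ t ∈ T, Sm B R t) → p < T.card ^ (2 ^ m) →
    ∀ x : ZMod p, Sm B (R ^ (256 ^ m * 16)) x := by
  classical
  induction m with
  | zero =>
    intro R hR hs hd T hT hp
    exfalso
    rw [pow_zero, pow_one] at hp
    have := Finset.card_le_univ T
    rw [ZMod.card] at this
    omega
  | succ m ih =>
    intro R hR hs hd T hT hp x
    have hBc : (0 : ℝ) ≤ B.card := Nat.cast_nonneg _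
    rcases step T with h | h | ⟨a, ha, b, hb, c, hc, d, hd', hcd, hcard⟩
    · obtain ⟨a, ha, b, hb, c, hc, d, hd', hcd, rfl⟩ := h x
      have h1 := Sm.sub hB hR hs hd (hT a ha) (hT b hb)
      have h2 := (Sm.sub hB hR hs hd (hT c hc) (hT d hd')).inv (sub_ne_zero.2 hcd)
      have h3 := Sm.mul hB (one_le_pow₀ hR) h1 h2
      rw [← div_eq_mul_inv] at h3
      refine h3.mono ?_
      rw [← pow_mul]
      apply pow_le_pow_right₀ hR
      have : 1 ≤ 256 ^ (m + 1) := Nat.one_le_pow _ _ (by norm_num)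
      omega
    · exfalso
      have h1 : T.card ^ (2 ^ (m + 1)) ≤ 1 := pow_le_one₀ (Nat.zero_le _) h
      have h2 := (Fact.out : p.Prime).two_le
      omega
    · have hR8 : ∀ k : ℕ, 1 ≤ k → R ≤ R ^ k := fun k hk => by
        calc R = R ^ 1 := (pow_one R).symm
          _ ≤ R ^ k := pow_le_pow_right₀ hR hk
      have hscale : ∀ k : ℕ, 1 ≤ k → ((B + B).card : ℝ) ≤ R ^ k * B.card := fun k hk =>
        hs.trans (mul_le_mul_of_nonneg_right (hR8 k hk) hBc)
      have hscaled : ∀ k : ℕ, 1 ≤ k → ((B - B).card : ℝ) ≤ R ^ k * B.card := fun k hk =>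
        hd.trans (mul_le_mul_of_nonneg_right (hR8 k hk) hBc)
      have hab := Sm.sub hB hR hs hd (hT a ha) (hT b hb)
      have hcd' := Sm.sub hB hR hs hd (hT c hc) (hT d hd')
      have hu : Sm B (R ^ 32) ((a - b) + (c - d)) := by
        refine (Sm.add hB (one_le_pow₀ hR) (hscale 8 (by norm_num)) hab hcd').mono (le_of_eq ?_)
        rw [← pow_mul]
      have hT' : ∀ t ∈ (T ×ˢ T).image (fun w : ZMod p × ZMod p => ((a - b) + (c - d)) * w.1 + (c - d) * w.2),
          Sm B (R ^ 256) t := by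
        intro t ht
        obtain ⟨w, hw, rfl⟩ := mem_image.1 ht
        rw [mem_product] at hw
        have e1 : Sm B (R ^ 64) (((a - b) + (c - d)) * w.1) := by
          refine (Sm.mul hB (one_le_pow₀ hR) hu ((hT _ hw.1).mono (hR8 32 (by norm_num)))).mono (le_of_eq ?_)
          rw [← pow_mul]
        have e2 : Sm B (R ^ 64) ((c - d) * w.2) := by
          refine (Sm.mul hB (one_le_pow₀ hR) (hcd'.mono (pow_le_pow_right₀ hR (by norm_num : 8 ≤ 32)))
            ((hT _ hw.2).mono (hR8 32 (by norm_num)))).mono (le_of_eq ?_)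
          rw [← pow_mul]
        refine (Sm.add hB (one_le_pow₀ hR) (hscale 64 (by norm_num)) e1 e2).mono (le_of_eq ?_)
        rw [← pow_mul]
      have hres := ih (R ^ 256) (one_le_pow₀ hR) (hscale 256 (by norm_num)) (hscaled 256 (by norm_num)) _ hT' (by
        rw [hcard, ← pow_mul]
        have : 2 * 2 ^ m = 2 ^ (m + 1) := by ring
        rw [this]
        exact hp) x
      refine hres.mono (le_of_eq ?_)
      rw [← pow_mul]
      congr 1
      ring

/-- the sum over all dilates: `p |B| ≤ R (p + |B|²)` if all sumsets `B + x B` are small. -/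
theorem all_small (B : Finset (ZMod p)) (hB : B.Nonempty) (R : ℝ) (h : ∀ x : ZMod p, Sm B R x) :
    (p : ℝ) * B.card ≤ R * (p + (B.card : ℝ) ^ 2) := by
  classical
  have hBc : (0 : ℝ) < B.card := by exact_mod_cast hB.card_pos
  -- the number of solutions
  set N : ZMod p → ℕ := fun x => (((B ×ˢ B) ×ˢ B ×ˢ B).filter
    (fun w => w.1.1 + x * w.1.2 = w.2.1 + x * w.2.2)).card with hN
  have hlow : ∀ x : ZMod p, (B.card : ℝ) ^ 3 ≤ R * N x := by
    intro x
    -- Cauchy-Schwarz over the sumset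
    set S := B + x • B with hS
    set r : ZMod p → ℕ := fun s => ((B ×ˢ B).filter (fun w => w.1 + x * w.2 = s)).card with hr
    have h1 : ∑ s ∈ S, r s = B.card ^ 2 := by
      have := Finset.card_eq_sum_card_fiberwise (f := fun w : ZMod p × ZMod p => w.1 + x * w.2)
        (s := B ×ˢ B) (t := S) (fun w hw => by
          rw [mem_coe, mem_product] at hw
          rw [mem_coe, hS]
          exact add_mem_add hw.1 (smul_mem_smul_finset hw.2))
      rw [card_product] at this
      rw [sq, this]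
    have h2 : N x = ∑ s ∈ S, r s ^ 2 := by
      have := Finset.card_eq_sum_card_fiberwise (f := fun w : (ZMod p × ZMod p) × ZMod p × ZMod p => w.1.1 + x * w.1.2)
        (s := ((B ×ˢ B) ×ˢ B ×ˢ B).filter (fun w => w.1.1 + x * w.1.2 = w.2.1 + x * w.2.2)) (t := S) (fun w hw => by
          rw [mem_coe, mem_filter, mem_product, mem_product, mem_product] at hw
          rw [mem_coe, hS]
          exact add_mem_add hw.1.1.1 (smul_mem_smul_finset hw.1.1.2))
      rw [hN]
      simp only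
      rw [this]
      refine Finset.sum_congr rfl fun s _ => ?_
      rw [sq, hr]
      simp only
      rw [← card_product]
      congr 1
      ext w
      simp only [mem_filter, mem_product]
      constructor
      · rintro ⟨⟨h1, h2⟩, h3⟩
        exact ⟨⟨h1.1, h3⟩, h1.2, by rw [← h3, h2]⟩
      · rintro ⟨⟨h1, h2⟩, h3, h4⟩
        exact ⟨⟨⟨h1, h3⟩, by rw [h2, h4]⟩, h2⟩
    have h3 : (∑ s ∈ S, (r s : ℝ)) ^ 2 ≤ S.card * ∑ s ∈ S, (r s : ℝ) ^ 2 := sq_sum_le_card_mul_sum_sq
    have h4 : ((B.card : ℝ) ^ 2) ^ 2 ≤ S.card * N x := by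
      have e1 : (∑ s ∈ S, (r s : ℝ)) = (B.card : ℝ) ^ 2 := by exact_mod_cast h1
      have e2 : (∑ s ∈ S, (r s : ℝ) ^ 2) = N x := by rw [h2]; push_cast; rfl
      rw [← e1, ← e2]
      exact h3
    have h5 : (S.card : ℝ) ≤ R * B.card := h x
    refine le_of_mul_le_mul_right ?_ hBc
    calc (B.card : ℝ) ^ 3 * B.card = ((B.card : ℝ) ^ 2) ^ 2 := by ring
      _ ≤ (S.card : ℝ) * (N x : ℝ) := h4
      _ ≤ (R * B.card) * N x := by gcongr
      _ = _ := by ring
  have hup : ((∑ x : ZMod p, N x : ℕ) : ℝ) ≤ p * (B.card : ℝ) ^ 2 + (B.card : ℝ) ^ 4 := by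
    have h1 : ∑ x : ZMod p, N x = ∑ w ∈ (B ×ˢ B) ×ˢ B ×ˢ B,
        (univ.filter (fun x : ZMod p => w.1.1 + x * w.1.2 = w.2.1 + x * w.2.2)).card := by
      simp only [hN, card_filter]
      rw [sum_comm]
    have h2 : ∀ w : (ZMod p × ZMod p) × ZMod p × ZMod p,
        (univ.filter (fun x : ZMod p => w.1.1 + x * w.1.2 = w.2.1 + x * w.2.2)).card ≤
          (if w.1 = w.2 then p else 0) + 1 := by
      intro w
      split_ifs with hw
      · refine (card_le_univ _).trans ?_
        rw [ZMod.card]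
        omega
      · rw [zero_add, card_le_one]
        intro x hx y hy
        rw [mem_filter] at hx hy
        have hx := hx.2
        have hy := hy.2
        have h3 : (x - y) * (w.1.2 - w.2.2) = 0 := by linear_combination hx - hy
        rcases mul_eq_zero.1 h3 with h4 | h4
        · exact sub_eq_zero.1 h4
        · exfalso
          apply hw
          have h5 := sub_eq_zero.1 h4
          rw [h5] at hx
          exact Prod.ext (add_right_cancel hx) h5
    have h3 : ∑ w ∈ (B ×ˢ B) ×ˢ B ×ˢ B, ((if w.1 = w.2 then p else 0) + 1) = p * B.card ^ 2 + B.card ^ 4 := by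
      rw [sum_add_distrib, sum_const, card_product, card_product, ← sum_filter, sum_const]
      have h4 : (((B ×ˢ B) ×ˢ B ×ˢ B).filter (fun w => w.1 = w.2)).card = (B ×ˢ B).card := by
        have : ((B ×ˢ B) ×ˢ B ×ˢ B).filter (fun w => w.1 = w.2) = (B ×ˢ B).image (fun w => (w, w)) := by
          ext w
          simp only [mem_filter, mem_product, mem_image]
          constructor
          · rintro ⟨⟨h1, h2⟩, h3⟩
            exact ⟨w.1, h1, Prod.ext rfl h3⟩
          · rintro ⟨v, hv, rfl⟩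
            exact ⟨⟨hv, hv⟩, rfl⟩
        rw [this, card_image_of_injective _ (fun a b hab => (Prod.ext_iff.1 hab).1)]
      rw [h4, card_product]
      simp only [smul_eq_mul, mul_one]
      ring
    have h4 : ∑ x : ZMod p, N x ≤ p * B.card ^ 2 + B.card ^ 4 := by
      rw [h1, ← h3]
      exact sum_le_sum fun w _ => h2 w
    exact_mod_cast h4
  have hR0 : 0 ≤ R := by
    have h1 := h 0
    unfold Sm at h1
    have h2 : (0 : ℝ) ≤ ((B + (0 : ZMod p) • B).card : ℝ) := Nat.cast_nonneg _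
    nlinarith
  have hsum : (p : ℝ) * (B.card : ℝ) ^ 3 ≤ R * (p * (B.card : ℝ) ^ 2 + (B.card : ℝ) ^ 4) := by
    calc (p : ℝ) * (B.card : ℝ) ^ 3 = ∑ _x : ZMod p, (B.card : ℝ) ^ 3 := by
          rw [sum_const, card_univ, ZMod.card, nsmul_eq_mul]
      _ ≤ ∑ x : ZMod p, R * (N x : ℝ) := sum_le_sum fun x _ => hlow x
      _ = R * ((∑ x : ZMod p, N x : ℕ) : ℝ) := by rw [← mul_sum]; push_cast; rfl
      _ ≤ _ := by gcongr
  have hB2 : (0 : ℝ) < (B.card : ℝ) ^ 2 := by positivity
  refine le_of_mul_le_mul_right ?_ hB2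
  calc (p : ℝ) * B.card * (B.card : ℝ) ^ 2 = (p : ℝ) * (B.card : ℝ) ^ 3 := by ring
    _ ≤ _ := hsum
    _ = _ := by ring

end Pool.Agent.Run7.h90.BGK
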