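import Mathlib
import Pool.Agent.Run7.h90.BGK.Grow
import Pool.Agent.H217R3.AK.Bsg

set_option autoImplicit false

/-! # The large spectrum of an almost invariant set -/

open Finset
open scoped Pointwise ComplexConjugate

namespace Pool.Agent.Run7.h90.BGK

variable {p : ℕ} [Fact p.Prime]

/-- the exponential sum over `A` -/
noncomputable def ES (A : Finset (ZMod p)) (ξ : ZMod p) : ℂ := ∑ a ∈ A, (ZMod.stdAddChar (ξ * a) : ℂ)

theorem norm_std (x : ZMod p) : ‖(ZMod.stdAddChar x : ℂ)‖ = 1 := AddChar.norm_apply _ _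

theorem conj_std (x : ZMod p) : conj (ZMod.stdAddChar x : ℂ) = ZMod.stdAddChar (-x) := by
  rw [AddChar.map_neg_eq_conj]

theorem ES_neg (A : Finset (ZMod p)) (ξ : ZMod p) : ES A (-ξ) = conj (ES A ξ) := by
  unfold ES
  rw [map_sum]
  refine sum_congr rfl fun a _ => ?_
  rw [conj_std, neg_mul]

theorem norm_ES_neg (A : Finset (ZMod p)) (ξ : ZMod p) : ‖ES A (-ξ)‖ = ‖ES A ξ‖ := by
  rw [ES_neg, RCLike.norm_conj]

theorem norm_ES_le (A : Finset (ZMod p)) (ξ : ZMod p) : ‖ES A ξ‖ ≤ A.card := by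
  unfold ES
  refine (norm_sum_le _ _).trans (le_of_eq ?_)
  simp

/-- the additive structure of the large spectrum -/
theorem struct (A L : Finset (ZMod p)) (α : ℝ) (hα : 0 ≤ α) (hL : ∀ ξ ∈ L, α * A.card ≤ ‖ES A ξ‖) :
    α ^ 2 * A.card * (L.card : ℝ) ^ 2 ≤ ∑ ξ ∈ L, ∑ ξ' ∈ L, ‖ES A (ξ - ξ')‖ := by
  classical
  rcases A.eq_empty_or_nonempty with rfl | hA
  · simp only [card_empty, Nat.cast_zero, mul_zero, zero_mul]
    exact sum_nonneg fun _ _ => sum_nonneg fun _ _ => norm_nonneg _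
  have hAc : (0 : ℝ) < A.card := by exact_mod_cast hA.card_pos
  set c : ZMod p → ℂ := fun ξ => if ES A ξ = 0 then 0 else conj (ES A ξ) / ‖ES A ξ‖ with hc
  have hc1 : ∀ ξ, ‖c ξ‖ ≤ 1 := by
    intro ξ
    simp only [hc]
    split_ifs with h
    · simp
    · rw [norm_div, RCLike.norm_conj, Complex.norm_real, norm_norm, div_self (norm_ne_zero_iff.2 h)]
  have hc2 : ∀ ξ, c ξ * ES A ξ = (‖ES A ξ‖ : ℂ) := by
    intro ξ
    simp only [hc]
    split_ifs with h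
    · simp [h]
    · have hne : (‖ES A ξ‖ : ℂ) ≠ 0 := by exact_mod_cast norm_ne_zero_iff.2 h
      rw [div_mul_eq_mul_div, mul_comm, Complex.mul_conj, Complex.normSq_eq_norm_sq]
      field_simp
      push_cast
      ring
  set u : ZMod p → ℂ := fun a => ∑ ξ ∈ L, c ξ * ZMod.stdAddChar (ξ * a) with hu
  have h1 : ∑ a ∈ A, u a = ((∑ ξ ∈ L, ‖ES A ξ‖ : ℝ) : ℂ) := by
    simp only [hu]
    rw [sum_comm]
    push_cast
    refine sum_congr rfl fun ξ _ => ?_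
    rw [← mul_sum, ← hc2]
    rfl
  have h2 : α * A.card * L.card ≤ ‖∑ a ∈ A, u a‖ := by
    rw [h1, Complex.norm_real, Real.norm_of_nonneg (sum_nonneg fun _ _ => norm_nonneg _)]
    calc α * A.card * L.card = ∑ _ξ ∈ L, α * (A.card : ℝ) := by rw [sum_const, nsmul_eq_mul]; ring
      _ ≤ _ := sum_le_sum hL
  have h3 : ‖∑ a ∈ A, u a‖ ^ 2 ≤ A.card * ∑ a ∈ A, ‖u a‖ ^ 2 := by
    calc ‖∑ a ∈ A, u a‖ ^ 2 ≤ (∑ a ∈ A, ‖u a‖) ^ 2 :=
          pow_le_pow_left₀ (norm_nonneg _) (norm_sum_le _ _) 2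
      _ ≤ _ := sq_sum_le_card_mul_sum_sq
  have h4 : ∑ a ∈ A, ‖u a‖ ^ 2 ≤ ∑ ξ ∈ L, ∑ ξ' ∈ L, ‖ES A (ξ - ξ')‖ := by
    have e1 : ((∑ a ∈ A, ‖u a‖ ^ 2 : ℝ) : ℂ) = ∑ ξ ∈ L, ∑ ξ' ∈ L, c ξ * conj (c ξ') * ES A (ξ - ξ') := by
      push_cast
      have e2 : ∀ a ∈ A, ((‖u a‖ : ℂ)) ^ 2 =
          ∑ ξ ∈ L, ∑ ξ' ∈ L, c ξ * conj (c ξ') * ZMod.stdAddChar ((ξ - ξ') * a) := by
        intro a _
        have : ((‖u a‖ : ℂ)) ^ 2 = u a * conj (u a) := by
          rw [Complex.mul_conj, Complex.normSq_eq_norm_sq]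
          push_cast
          rfl
        rw [this]
        simp only [hu]
        rw [map_sum, sum_mul_sum]
        refine sum_congr rfl fun ξ _ => sum_congr rfl fun ξ' _ => ?_
        rw [show conj (c ξ' * (ZMod.stdAddChar (ξ' * a) : ℂ)) = conj (c ξ') * conj (ZMod.stdAddChar (ξ' * a) : ℂ) from
          (starRingEnd ℂ).map_mul _ _, conj_std, sub_mul, sub_eq_add_neg (ξ * a), AddChar.map_add_eq_mul]
        ring
      rw [sum_congr rfl e2, sum_comm]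
      refine sum_congr rfl fun ξ _ => ?_
      rw [sum_comm]
      refine sum_congr rfl fun ξ' _ => ?_
      rw [← mul_sum]
      rfl
    have e3 : (∑ a ∈ A, ‖u a‖ ^ 2 : ℝ) = ‖((∑ a ∈ A, ‖u a‖ ^ 2 : ℝ) : ℂ)‖ := by
      rw [Complex.norm_real, Real.norm_of_nonneg (sum_nonneg fun _ _ => sq_nonneg _)]
    rw [e3, e1]
    refine (norm_sum_le _ _).trans (sum_le_sum fun ξ _ => (norm_sum_le _ _).trans (sum_le_sum fun ξ' _ => ?_))
    rw [norm_mul, norm_mul, RCLike.norm_conj]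
    calc ‖c ξ‖ * ‖c ξ'‖ * ‖ES A (ξ - ξ')‖ ≤ 1 * 1 * ‖ES A (ξ - ξ')‖ := by
          have := hc1 ξ
          have := hc1 ξ'
          gcongr
      _ = _ := by ring
  have h5 : (α * A.card * L.card) ^ 2 ≤ A.card * ∑ ξ ∈ L, ∑ ξ' ∈ L, ‖ES A (ξ - ξ')‖ := by
    calc (α * A.card * L.card) ^ 2 ≤ ‖∑ a ∈ A, u a‖ ^ 2 := pow_le_pow_left₀ (by positivity) h2 2
      _ ≤ _ := h3
      _ ≤ _ := by gcongr
  refine le_of_mul_le_mul_left ?_ hAc
  calc (A.card : ℝ) * (α ^ 2 * A.card * (L.card : ℝ) ^ 2) = (α * A.card * L.card) ^ 2 := by ring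
    _ ≤ _ := h5

/-- many sums of two elements of the spectrum are in a larger spectrum -/
theorem pairs (A L D : Finset (ZMod p)) (hA : A.Nonempty) (α : ℝ) (hα : 0 ≤ α)
    (hL : ∀ ξ ∈ L, α * A.card ≤ ‖ES A ξ‖) (hsym : ∀ ξ ∈ L, -ξ ∈ L)
    (hD : ∀ ξ, α ^ 2 / 2 * A.card ≤ ‖ES A ξ‖ → ξ ∈ D) :
    α ^ 2 / 2 * (L.card : ℝ) ^ 2 ≤ (((L ×ˢ L).filter (fun w => w.1 + w.2 ∈ D)).card : ℝ) := by
  classical
  have hAc : (0 : ℝ) < A.card := by exact_mod_cast hA.card_pos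
  have h1 := struct A L α hα hL
  have h2 : ∑ ξ ∈ L, ∑ ξ' ∈ L, ‖ES A (ξ - ξ')‖ = ∑ w ∈ L ×ˢ L, ‖ES A (w.1 + w.2)‖ := by
    rw [sum_product]
    refine sum_congr rfl fun ξ _ => ?_
    refine sum_nbij' (fun x => -x) (fun x => -x) (fun x hx => hsym x hx) (fun x hx => hsym x hx)
      (fun x _ => neg_neg x) (fun x _ => neg_neg x) (fun x _ => ?_)
    rw [sub_eq_add_neg]
  rw [h2, ← sum_filter_add_sum_filter_not (L ×ˢ L) (fun w => w.1 + w.2 ∈ D)] at h1
  have h3 : ∑ w ∈ (L ×ˢ L).filter (fun w => w.1 + w.2 ∈ D), ‖ES A (w.1 + w.2)‖ ≤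
      (((L ×ˢ L).filter (fun w => w.1 + w.2 ∈ D)).card : ℝ) * A.card := by
    rw [← nsmul_eq_mul, ← sum_const]
    exact sum_le_sum fun w _ => norm_ES_le _ _
  have h4 : ∑ w ∈ (L ×ˢ L).filter (fun w => ¬ (w.1 + w.2 ∈ D)), ‖ES A (w.1 + w.2)‖ ≤
      (L.card : ℝ) ^ 2 * (α ^ 2 / 2 * A.card) := by
    calc ∑ w ∈ (L ×ˢ L).filter (fun w => ¬ (w.1 + w.2 ∈ D)), ‖ES A (w.1 + w.2)‖
        ≤ ∑ _w ∈ (L ×ˢ L).filter (fun w => ¬ (w.1 + w.2 ∈ D)), α ^ 2 / 2 * (A.card : ℝ) := by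
          refine sum_le_sum fun w hw => ?_
          rw [mem_filter] at hw
          by_contra hcon
          exact hw.2 (hD _ (not_le.1 hcon).le)
      _ = (((L ×ˢ L).filter (fun w => ¬ (w.1 + w.2 ∈ D))).card : ℝ) * (α ^ 2 / 2 * A.card) := by
          rw [sum_const, nsmul_eq_mul]
      _ ≤ (((L ×ˢ L)).card : ℝ) * (α ^ 2 / 2 * A.card) := by
          gcongr
          exact filter_subset _ _
      _ = _ := by rw [card_product]; push_cast; ring
  refine le_of_mul_le_mul_right ?_ hAc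
  nlinarith

theorem energy (A L D : Finset (ZMod p)) (hA : A.Nonempty) (α : ℝ) (hα : 0 ≤ α)
    (hL : ∀ ξ ∈ L, α * A.card ≤ ‖ES A ξ‖) (hsym : ∀ ξ ∈ L, -ξ ∈ L)
    (hD : ∀ ξ, α ^ 2 / 2 * A.card ≤ ‖ES A ξ‖ → ξ ∈ D) :
    α ^ 4 / 4 * (L.card : ℝ) ^ 4 ≤ D.card * (L.addEnergy L : ℕ) := by
  classical
  have h1 := pairs A L D hA α hα hL hsym hD
  have h2 := card_sq_le_card_mul_addEnergy L L D
  have h3 : (((L ×ˢ L).filter (fun w => w.1 + w.2 ∈ D)).card : ℝ) ^ 2 ≤ D.card * (L.addEnergy L : ℕ) := by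
    exact_mod_cast h2
  calc α ^ 4 / 4 * (L.card : ℝ) ^ 4 = (α ^ 2 / 2 * (L.card : ℝ) ^ 2) ^ 2 := by ring
    _ ≤ (((L ×ˢ L).filter (fun w => w.1 + w.2 ∈ D)).card : ℝ) ^ 2 := pow_le_pow_left₀ (by positivity) h1 2
    _ ≤ _ := h3

theorem parseval (A : Finset (ZMod p)) : ∑ ξ : ZMod p, ‖ES A ξ‖ ^ 2 = p * A.card := by
  classical
  have e1 : ((∑ ξ : ZMod p, ‖ES A ξ‖ ^ 2 : ℝ) : ℂ) = ((p * A.card : ℝ) : ℂ) := by
    push_cast
    have e2 : ∀ ξ : ZMod p, ((‖ES A ξ‖ : ℂ)) ^ 2 = ∑ a ∈ A, ∑ b ∈ A, ZMod.stdAddChar (ξ * (a - b)) := by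
      intro ξ
      have : ((‖ES A ξ‖ : ℂ)) ^ 2 = ES A ξ * conj (ES A ξ) := by
        rw [Complex.mul_conj, Complex.normSq_eq_norm_sq]
        push_cast
        rfl
      rw [this]
      unfold ES
      rw [map_sum, sum_mul_sum]
      refine sum_congr rfl fun a _ => sum_congr rfl fun b _ => ?_
      rw [conj_std, mul_sub, sub_eq_add_neg (ξ * a), AddChar.map_add_eq_mul]
    rw [sum_congr rfl (fun ξ _ => e2 ξ), sum_comm]
    have e3 : ∀ a ∈ A, ∑ ξ : ZMod p, ∑ b ∈ A, (ZMod.stdAddChar (ξ * (a - b)) : ℂ) = p := by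
      intro a ha
      rw [sum_comm]
      have e4 : ∀ b ∈ A, ∑ ξ : ZMod p, (ZMod.stdAddChar (ξ * (a - b)) : ℂ) = if a = b then (p : ℂ) else 0 := by
        intro b _
        rw [AddChar.sum_mulShift _ (ZMod.isPrimitive_stdAddChar p), ZMod.card]
        simp only [sub_eq_zero]
        split_ifs <;> simp
      rw [sum_congr rfl e4, sum_ite_eq, if_pos ha]
    rw [sum_congr rfl e3, sum_const, nsmul_eq_mul]
    ring
  exact_mod_cast e1

theorem card_spec (A L : Finset (ZMod p)) (hA : A.Nonempty) (α : ℝ) (hα : 0 ≤ α)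
    (hL : ∀ ξ ∈ L, α * A.card ≤ ‖ES A ξ‖) : (L.card : ℝ) * (α ^ 2 * A.card) ≤ p := by
  have hAc : (0 : ℝ) < A.card := by exact_mod_cast hA.card_pos
  refine le_of_mul_le_mul_right ?_ hAc
  calc (L.card : ℝ) * (α ^ 2 * A.card) * A.card = ∑ _ξ ∈ L, (α * A.card) ^ 2 := by
        rw [sum_const, nsmul_eq_mul]; ring
    _ ≤ ∑ ξ ∈ L, ‖ES A ξ‖ ^ 2 := sum_le_sum fun ξ hξ => pow_le_pow_left₀ (by positivity) (hL ξ hξ) 2
    _ ≤ ∑ ξ : ZMod p, ‖ES A ξ‖ ^ 2 := sum_le_univ_sum_of_nonneg fun _ => sq_nonneg _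
    _ = _ := parseval A

/-- almost invariance -/
theorem shift (A : Finset (ZMod p)) (h : ZMod p) (hh : h ≠ 0) (η : ℝ)
    (hη : ((A.filter (fun a => h * a ∉ A)).card : ℝ) ≤ η * A.card) (ξ : ZMod p) :
    ‖ES A ξ‖ - 2 * η * A.card ≤ ‖ES A (h * ξ)‖ := by
  classical
  have h1 : ES A (h * ξ) = ∑ b ∈ h • A, (ZMod.stdAddChar (ξ * b) : ℂ) := by
    unfold ES
    rw [smul_finset_def, sum_image (by intro a _ b _ hab; exact mul_right_injective₀ hh hab)]
    refine sum_congr rfl fun a _ => ?_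
    congr 1
    rw [smul_eq_mul]
    ring
  have hcard : (h • A).card = A.card := card_smul' h hh A
  have h2 : ((h • A) \ A).card = (A.filter (fun a => h * a ∉ A)).card := by
    have : (h • A) \ A = (A.filter (fun a => h * a ∉ A)).image (fun a => h * a) := by
      ext z
      rw [mem_sdiff, mem_smul_finset, mem_image]
      constructor
      · rintro ⟨⟨a, ha, rfl⟩, hz⟩
        exact ⟨a, mem_filter.2 ⟨ha, hz⟩, rfl⟩
      · rintro ⟨a, ha, rfl⟩
        rw [mem_filter] at ha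
        exact ⟨⟨a, ha.1, rfl⟩, ha.2⟩
    rw [this, card_image_of_injective _ (mul_right_injective₀ hh)]
  have h3 : (A \ (h • A)).card = ((h • A) \ A).card := card_sdiff_comm hcard.symm
  have h4 : ES A ξ - ES A (h * ξ) = ∑ b ∈ A \ (h • A), (ZMod.stdAddChar (ξ * b) : ℂ) -
      ∑ b ∈ (h • A) \ A, (ZMod.stdAddChar (ξ * b) : ℂ) := by
    rw [h1, sum_sdiff_sub_sum_sdiff]
    rfl
  have h5 : ∀ C : Finset (ZMod p), ‖∑ b ∈ C, (ZMod.stdAddChar (ξ * b) : ℂ)‖ ≤ C.card := by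
    intro C
    refine (norm_sum_le _ _).trans (le_of_eq ?_)
    simp
  have h6 : ‖ES A ξ - ES A (h * ξ)‖ ≤ 2 * η * A.card := by
    rw [h4]
    refine (norm_sub_le _ _).trans ?_
    have e1 := h5 (A \ (h • A))
    have e2 := h5 ((h • A) \ A)
    rw [h3] at e1
    rw [h2] at e1 e2
    linarith
  have h7 : ‖ES A ξ‖ ≤ ‖ES A ξ - ES A (h * ξ)‖ + ‖ES A (h * ξ)‖ := by
    have := norm_add_le (ES A ξ - ES A (h * ξ)) (ES A (h * ξ))
    rwa [sub_add_cancel] at this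
  linarith

/-- popular dilates -/
theorem popular (B D H : Finset (ZMod p)) (hB : B.Nonempty) (h0 : (0 : ZMod p) ∉ H) (hH : H.Nonempty)
    (hsub : ∀ h ∈ H, h • B ⊆ D) (Q : ℝ) (hQ : 0 < Q) (hD : (D.card : ℝ) ≤ Q * B.card) :
    ∃ T : Finset (ZMod p), (H.card : ℝ) ≤ 2 * Q * T.card ∧
      ∀ t ∈ T, t ≠ 0 ∧ (B.card : ℝ) ≤ 2 * Q * (B ∩ t • B).card := by
  classical
  have hBc : (0 : ℝ) < B.card := by exact_mod_cast hB.card_pos
  have hHc : (0 : ℝ) < H.card := by exact_mod_cast hH.card_pos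
  have hcard : ∀ h ∈ H, (h • B).card = B.card := fun h hh => card_smul' h (fun e => h0 (e ▸ hh)) B
  set r : ZMod p → ℕ := fun d => (H.filter (fun h => d ∈ h • B)).card with hr
  have h1 : ∑ d ∈ D, r d = H.card * B.card := by
    simp only [hr, card_filter]
    rw [sum_comm]
    have : ∀ h ∈ H, ∑ d ∈ D, (if d ∈ h • B then 1 else 0) = B.card := by
      intro h hh
      rw [← card_filter, filter_mem_eq_inter, inter_eq_right.2 (hsub h hh), hcard h hh]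
    rw [sum_congr rfl this, sum_const, smul_eq_mul]
  have h2 : ∑ d ∈ D, r d ^ 2 = ∑ h' ∈ H, ∑ h ∈ H, (h • B ∩ h' • B).card := by
    have e1 : ∀ d ∈ D, r d ^ 2 = ∑ h' ∈ H, ∑ h ∈ H, if d ∈ h • B ∩ h' • B then 1 else 0 := by
      intro d _
      simp only [hr, card_filter]
      rw [sq, sum_mul_sum, sum_comm]
      refine sum_congr rfl fun h' _ => sum_congr rfl fun h _ => ?_
      by_cases hh1 : d ∈ h • B
      · by_cases hh2 : d ∈ h' • B
        · rw [if_pos hh1, if_pos hh2, if_pos (mem_inter.2 ⟨hh1, hh2⟩), mul_one]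
        · rw [if_neg hh2, if_neg (fun h => hh2 (mem_inter.1 h).2), mul_zero]
      · rw [if_neg hh1, if_neg (fun h => hh1 (mem_inter.1 h).1), zero_mul]
    rw [sum_congr rfl e1, sum_comm]
    refine sum_congr rfl fun h' hh' => ?_
    rw [sum_comm]
    refine sum_congr rfl fun h hh => ?_
    rw [← card_filter, filter_mem_eq_inter, inter_eq_right.2 (inter_subset_left.trans (hsub h hh))]
  have h3 : (∑ d ∈ D, (r d : ℝ)) ^ 2 ≤ D.card * ∑ d ∈ D, (r d : ℝ) ^ 2 := sq_sum_le_card_mul_sum_sq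
  have h1' : (∑ d ∈ D, (r d : ℝ)) = H.card * B.card := by exact_mod_cast h1
  have h2' : (∑ d ∈ D, (r d : ℝ) ^ 2) = ∑ h' ∈ H, ∑ h ∈ H, ((h • B ∩ h' • B).card : ℝ) := by exact_mod_cast h2
  rw [h1', h2'] at h3
  -- the best `h'`
  obtain ⟨h', hh', hbest⟩ : ∃ h' ∈ H, (B.card : ℝ) * H.card ≤ Q * ∑ h ∈ H, ((h • B ∩ h' • B).card : ℝ) := by
    by_contra hcon0
    have hcon : ∀ h' ∈ H, Q * ∑ h ∈ H, ((h • B ∩ h' • B).card : ℝ) < (B.card : ℝ) * H.card :=
      fun h' hh' => lt_of_not_ge fun hle => hcon0 ⟨h', hh', hle⟩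
    have h4 : Q * ∑ h' ∈ H, ∑ h ∈ H, ((h • B ∩ h' • B).card : ℝ) < ∑ _h' ∈ H, (B.card : ℝ) * H.card := by
      rw [mul_sum]
      exact sum_lt_sum_of_nonempty hH hcon
    rw [sum_const, nsmul_eq_mul] at h4
    have hS0 : (0 : ℝ) ≤ ∑ h' ∈ H, ∑ h ∈ H, ((h • B ∩ h' • B).card : ℝ) :=
      sum_nonneg fun _ _ => sum_nonneg fun _ _ => Nat.cast_nonneg _
    generalize (∑ h' ∈ H, ∑ h ∈ H, ((h • B ∩ h' • B).card : ℝ)) = S at h3 h4 hS0
    have h5 : ((H.card : ℝ) * B.card) ^ 2 ≤ (Q * B.card) * S :=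
      h3.trans (mul_le_mul_of_nonneg_right hD hS0)
    have h6 : (B.card : ℝ) * (Q * S) < B.card * ((H.card : ℝ) * (B.card * H.card)) :=
      mul_lt_mul_of_pos_left h4 hBc
    have h7 : ((H.card : ℝ) * B.card) ^ 2 = B.card * ((H.card : ℝ) * (B.card * H.card)) := by ring
    have h8 : (Q * B.card) * S = B.card * (Q * S) := by ring
    linarith
  have hh'0 : h' ≠ 0 := fun e => h0 (e ▸ hh')
  set H₁ := H.filter (fun h => (B.card : ℝ) ≤ 2 * Q * (h • B ∩ h' • B).card) with hH₁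
  have h7 : ∑ h ∈ H, ((h • B ∩ h' • B).card : ℝ) ≤ H₁.card * B.card + H.card * (B.card / (2 * Q)) := by
    rw [← sum_filter_add_sum_filter_not H (fun h => (B.card : ℝ) ≤ 2 * Q * (h • B ∩ h' • B).card)]
    refine add_le_add ?_ ?_
    · rw [← nsmul_eq_mul, ← sum_const]
      refine sum_le_sum fun h hh => ?_
      have : (h • B ∩ h' • B).card ≤ B.card := by
        rw [← card_smul' h' hh'0 B]
        exact card_le_card inter_subset_right
      exact_mod_cast this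
    · calc _ ≤ ∑ _h ∈ H.filter (fun h => ¬ (B.card : ℝ) ≤ 2 * Q * (h • B ∩ h' • B).card), (B.card : ℝ) / (2 * Q) := by
            refine sum_le_sum fun h hh => ?_
            rw [mem_filter, not_le] at hh
            rw [le_div_iff₀ (by positivity)]
            linarith [hh.2]
        _ = ((H.filter (fun h => ¬ (B.card : ℝ) ≤ 2 * Q * (h • B ∩ h' • B).card)).card : ℝ) * ((B.card : ℝ) / (2 * Q)) := by
            rw [sum_const, nsmul_eq_mul]
        _ ≤ _ := by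
            gcongr
            exact filter_subset _ _
  refine ⟨H₁.image (fun h => h * h'⁻¹), ?_, ?_⟩
  · rw [card_image_of_injective _ (mul_left_injective₀ (inv_ne_zero hh'0))]
    have h8 : (B.card : ℝ) * H.card ≤ Q * (H₁.card * B.card) + H.card * (B.card / 2) := by
      refine hbest.trans ?_
      calc Q * ∑ h ∈ H, ((h • B ∩ h' • B).card : ℝ) ≤ Q * (H₁.card * B.card + H.card * (B.card / (2 * Q))) := by gcongr
        _ = _ := by field_simp
    refine le_of_mul_le_mul_right ?_ hBc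
    have h9 : Q * ((H₁.card : ℝ) * B.card) = Q * H₁.card * B.card := by ring
    have h10 : (H.card : ℝ) * (B.card / 2) = (B.card * H.card) / 2 := by ring
    rw [h9, h10] at h8
    have h11 : 2 * Q * (H₁.card : ℝ) * B.card = 2 * (Q * H₁.card * B.card) := by ring
    have h12 : (H.card : ℝ) * B.card = B.card * H.card := by ring
    rw [h11, h12]
    linarith
  · intro t ht
    obtain ⟨h, hh, rfl⟩ := mem_image.1 ht
    rw [hH₁, mem_filter] at hh
    have hh0 : h ≠ 0 := fun e => h0 (e ▸ hh.1)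
    refine ⟨mul_ne_zero hh0 (inv_ne_zero hh'0), ?_⟩
    have h9 : (B ∩ (h * h'⁻¹) • B).card = (h • B ∩ h' • B).card := by
      rw [← card_smul' h' hh'0 (B ∩ (h * h'⁻¹) • B)]
      congr 1
      have : h' • (B ∩ (h * h'⁻¹) • B) = h' • B ∩ h' • ((h * h'⁻¹) • B) :=
        image_inter _ _ (mul_right_injective₀ hh'0)
      rw [this, smul_smul_B, inter_comm]
      congr 2
      field_simp
    rw [h9]
    exact hh.2

theorem Sm_of_inter (B : Finset (ZMod p)) (hB : B.Nonempty) (t : ZMod p) (ht : t ≠ 0) (K Q : ℝ) (hK : 0 ≤ K)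
    (hs : ((B + B).card : ℝ) ≤ K * B.card) (hi : (B.card : ℝ) ≤ Q * (B ∩ t • B).card) :
    Sm B (K ^ 2 * Q) t := by
  have hBc : (0 : ℝ) < B.card := by exact_mod_cast hB.card_pos
  have hIc : (0 : ℝ) < (B ∩ t • B).card := by
    by_contra h
    have : ((B ∩ t • B).card : ℝ) = 0 := le_antisymm (not_lt.1 h) (Nat.cast_nonneg _)
    rw [this, mul_zero] at hi
    linarith
  have h1 := ruzsa_triangle_inequality_add_add_add B (B ∩ t • B) (t • B)
  have h2 : (B + B ∩ t • B).card ≤ (B + B).card := card_le_card (add_subset_add_left inter_subset_left)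
  have h3 : (B ∩ t • B + t • B).card ≤ (B + B).card := by
    calc (B ∩ t • B + t • B).card ≤ (t • B + t • B).card := card_le_card (add_subset_add_right inter_subset_right)
      _ = (t • (B + B)).card := by rw [smul_addB]
      _ = _ := card_smul' t ht _
  have h4 : ((B + t • B).card : ℝ) * (B ∩ t • B).card ≤ ((B + B).card : ℝ) * (B + B).card := by
    have : (B + t • B).card * (B ∩ t • B).card ≤ (B + B).card * (B + B).card :=
      h1.trans (Nat.mul_le_mul h2 h3)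
    exact_mod_cast this
  unfold Sm
  refine le_of_mul_le_mul_right ?_ hIc
  calc _ ≤ _ := h4
    _ ≤ (K * B.card) * (K * B.card) := by gcongr
    _ = K ^ 2 * B.card * B.card := by ring
    _ ≤ K ^ 2 * B.card * (Q * (B ∩ t • B).card) := by gcongr
    _ = _ := by ring

end Pool.Agent.Run7.h90.BGK
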