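import Mathlib
import Pool.Agent.Run7.h90.BGK.Spec

set_option autoImplicit false

/-! # The theorem of Bourgain, Glibichuk and Konyagin, for almost invariant sets -/

open Finset
open scoped Pointwise

namespace Pool.Agent.Run7.h90.BGK

variable {p : ℕ} [Fact p.Prime]

theorem pigeon (J : ℕ) (hJ : 1 ≤ J) (ρ P : ℝ) (hρ : 0 < ρ) (hP : ρ ^ J = P) (c : ℕ → ℝ) (h1 : 1 ≤ c 1)
    (h2 : c (J + 1) ≤ P) : ∃ j, 1 ≤ j ∧ j ≤ J ∧ c (j + 1) ≤ ρ * c j := by
  by_contra hcon
  have hcon' : ∀ j, 1 ≤ j → j ≤ J → ρ * c j < c (j + 1) := fun j h1 h2 =>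
    lt_of_not_ge fun h => hcon ⟨j, h1, h2, h⟩
  have h3 : ∀ i, 1 ≤ i → i ≤ J → ρ ^ i < c (i + 1) := by
    intro i hi
    induction i, hi using Nat.le_induction with
    | base =>
      intro h
      have := hcon' 1 le_rfl h
      rw [pow_one]
      nlinarith
    | succ i hi ih =>
      intro h
      have e1 := ih (by omega)
      have e2 := hcon' (i + 1) (by omega) h
      rw [pow_succ, mul_comm]
      exact (mul_lt_mul_of_pos_left e1 hρ).trans e2
  have h4 := h3 J hJ le_rfl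
  linarith

theorem core (A H : Finset (ZMod p)) (h0 : (0 : ZMod p) ∉ H) (J : ℕ) (hJ : 1 ≤ J) (m : ℕ)
    (X : ℝ) (hX : 4 ≤ X) (a0 : ℝ) (ha0 : 0 < a0) (ha1 : a0 ≤ 1) (η : ℝ) (hη : η ≤ 1 / (4 * X))
    (hinv : ∀ h ∈ H, ((A.filter (fun a => h * a ∉ A)).card : ℝ) ≤ η * A.card)
    (hρ : (p : ℝ) ^ ((J : ℝ)⁻¹) ≤ X) (hα : 1 / X ≤ 2 * (a0 / 2) ^ (2 ^ (J + 1)))
    (ξ₀ : ZMod p) (hξ₀ : ξ₀ ≠ 0) (hbig : a0 * A.card ≤ ‖ES A ξ₀‖)
    (hT : (p : ℝ) < (H.card / X ^ 9) ^ (2 ^ m))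
    (hc2 : X ^ (300 * (256 ^ m * 16) + 9) ≤ H.card) (hc3 : X ^ (300 * (256 ^ m * 16) + 3) ≤ A.card) : False := by
  classical
  have hX0 : 0 < X := by linarith
  have hX1 : 1 ≤ X := by linarith
  have hHc : (0 : ℝ) < H.card := lt_of_lt_of_le (by positivity) hc2
  have hAc : (0 : ℝ) < A.card := lt_of_lt_of_le (by positivity) hc3
  have hHne : H.Nonempty := by
    rw [← card_pos]; exact_mod_cast hHc
  have hAne : A.Nonempty := by
    rw [← card_pos]; exact_mod_cast hAc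
  have hp0 : (0 : ℝ) < p := by exact_mod_cast (Fact.out : p.Prime).pos
  -- the levels
  set α : ℕ → ℝ := fun j => 2 * (a0 / 2) ^ (2 ^ j) with hαdef
  have hα0 : α 0 = a0 := by simp only [hαdef]; ring
  have hαs : ∀ j, α (j + 1) = α j ^ 2 / 2 := by
    intro j
    simp only [hαdef]
    rw [pow_succ 2 j, pow_mul]
    ring
  have hαpos : ∀ j, 0 < α j := fun j => by simp only [hαdef]; positivity
  have hα1 : ∀ j, α j ≤ 1 := by
    intro j
    induction j with
    | zero => rw [hα0]; exact ha1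
    | succ j ih =>
      rw [hαs]
      have := hαpos j
      nlinarith
  have hαhalf : ∀ j, α (j + 1) ≤ α j / 2 := by
    intro j
    rw [hαs]
    have h1 := hαpos j
    have h2 := hα1 j
    nlinarith
  have hαanti : ∀ i j, i ≤ j → α j ≤ α i := by
    intro i j hij
    induction j, hij using Nat.le_induction with
    | base => exact le_rfl
    | succ j _ ih =>
      have h1 := hαhalf j
      have h2 := hαpos j
      linarith
  have hαlow : ∀ j, j ≤ J + 1 → 1 / X ≤ α j := fun j hj => hα.trans (hαanti j (J + 1) hj)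
  set L : ℕ → Finset (ZMod p) := fun j => univ.filter (fun ξ => α j * A.card ≤ ‖ES A ξ‖) with hL
  have hLmem : ∀ j ξ, ξ ∈ L j ↔ α j * A.card ≤ ‖ES A ξ‖ := by
    intro j ξ
    simp only [hL, mem_filter, mem_univ, true_and]
  have hLmono : ∀ j, L j ⊆ L (j + 1) := by
    intro j ξ hξ
    rw [hLmem] at hξ ⊢
    refine le_trans ?_ hξ
    have h1 := hαhalf j
    have h2 := hαpos j
    gcongr
    linarith
  have hLmono2 : ∀ i j, i ≤ j → L i ⊆ L j := by
    intro i j hij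
    induction j, hij using Nat.le_induction with
    | base => exact Subset.refl _
    | succ j _ ih => exact ih.trans (hLmono j)
  have hstep : ∀ j, j ≤ J → ∀ h ∈ H, ∀ ξ ∈ L j, h * ξ ∈ L (j + 1) := by
    intro j hj h hh ξ hξ
    rw [hLmem] at hξ ⊢
    have h1 := shift A h (fun e => h0 (e ▸ hh)) η (hinv h hh) ξ
    have h2 := hαhalf j
    have h3 := hαlow j (by omega)
    have h4 : 1 / (4 * X) = (1 / X) / 4 := by field_simp
    rw [h4] at hη
    have h5 : α (j + 1) ≤ α j - 2 * η := by linarith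
    calc α (j + 1) * A.card ≤ (α j - 2 * η) * A.card := by gcongr
      _ = α j * A.card - 2 * η * A.card := by ring
      _ ≤ ‖ES A ξ‖ - 2 * η * A.card := by linarith
      _ ≤ _ := h1
  -- sizes
  have hHL : ∀ j, 1 ≤ j → H.card ≤ (L j).card := by
    intro j hj
    have h1 : H.image (fun h => h * ξ₀) ⊆ L j := by
      intro z hz
      obtain ⟨h, hh, rfl⟩ := mem_image.1 hz
      apply hLmono2 1 j hj
      apply hstep 0 (Nat.zero_le _) h hh
      rw [hLmem, hα0]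
      exact hbig
    have h2 := card_le_card h1
    rwa [card_image_of_injective _ (mul_left_injective₀ hξ₀)] at h2
  obtain ⟨j, hj1, hjJ, hjρ⟩ := pigeon J hJ ((p : ℝ) ^ ((J : ℝ)⁻¹)) p (by positivity)
    (Real.rpow_inv_natCast_pow hp0.le (by omega)) (fun j => ((L j).card : ℝ)) (by
      have h1 := hHL 1 le_rfl
      have h2 : 1 ≤ H.card := hHne.card_pos
      exact_mod_cast h2.trans h1) (by
      have := card_le_univ (L (J + 1))
      rw [ZMod.card] at this
      exact_mod_cast this)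
  have hD : ((L (j + 1)).card : ℝ) ≤ X * (L j).card :=
    hjρ.trans (mul_le_mul_of_nonneg_right hρ (Nat.cast_nonneg _))
  have hsym : ∀ ξ ∈ L j, -ξ ∈ L j := by
    intro ξ hξ
    rw [hLmem] at hξ ⊢
    rwa [norm_ES_neg]
  have hen := energy A (L j) (L (j + 1)) hAne (α j) (hαpos j).le (fun ξ hξ => (hLmem j ξ).1 hξ) hsym (by
    intro ξ hξ
    rw [hLmem, hαs]
    exact hξ)
  have hLc : (0 : ℝ) < (L j).card := lt_of_lt_of_le hHc (by exact_mod_cast hHL j hj1)
  have hLne : (L j).Nonempty := by rw [← card_pos]; exact_mod_cast hLc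
  have hαj := hαlow j (by omega)
  have hαX : 1 ≤ X * α j := by
    rw [div_le_iff₀ hX0] at hαj
    linarith
  have hE3 : ((L j).card : ℝ) ^ 3 ≤ (4 * X ^ 5) * ((L j).addEnergy (L j) : ℕ) := by
    have hE0 : (0 : ℝ) ≤ ((L j).addEnergy (L j) : ℕ) := Nat.cast_nonneg _
    have e1 : α j ^ 4 / 4 * ((L j).card : ℝ) ^ 4 ≤ (X * (L j).card) * ((L j).addEnergy (L j) : ℕ) :=
      hen.trans (mul_le_mul_of_nonneg_right hD hE0)
    have e2 : 1 ≤ (X * α j) ^ 4 := one_le_pow₀ hαX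
    refine le_of_mul_le_mul_right ?_ hLc
    calc ((L j).card : ℝ) ^ 3 * (L j).card = 1 * ((L j).card : ℝ) ^ 4 := by ring
      _ ≤ (X * α j) ^ 4 * ((L j).card : ℝ) ^ 4 := by gcongr
      _ = 4 * X ^ 4 * (α j ^ 4 / 4 * ((L j).card : ℝ) ^ 4) := by ring
      _ ≤ 4 * X ^ 4 * ((X * (L j).card) * ((L j).addEnergy (L j) : ℕ)) := by gcongr
      _ = _ := by ring
  obtain ⟨B, hBL, hBne, hB1, hB2⟩ := Pool.Agent.H217R3.AK.bsg (L j) hLne (4 * X ^ 5) (by positivity) hE3
  have hBc : (0 : ℝ) < B.card := by exact_mod_cast hBne.card_pos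
  have h4X : (4 : ℝ) ^ 87 ≤ X ^ 87 := pow_le_pow_left₀ (by norm_num) hX 87
  -- sums and differences
  have hK1 : ((B - B).card : ℝ) ≤ X ^ 92 * B.card := by
    refine hB2.trans ?_
    gcongr
    calc (2 : ℝ) ^ 22 * (4 * X ^ 5) ^ 10 = 4 ^ 21 * X ^ 50 := by ring
      _ ≤ X ^ 21 * X ^ 50 := by gcongr
      _ = X ^ 71 := by ring
      _ ≤ X ^ 92 := pow_le_pow_right₀ hX1 (by norm_num)
  have hK1' : ((B - B).card : ℝ) ≤ X ^ 71 * B.card := by
    refine hB2.trans ?_
    gcongr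
    calc (2 : ℝ) ^ 22 * (4 * X ^ 5) ^ 10 = 4 ^ 21 * X ^ 50 := by ring
      _ ≤ X ^ 21 * X ^ 50 := by gcongr
      _ = X ^ 71 := by ring
  have hK2 : ((B + B).card : ℝ) ≤ X ^ 142 * B.card := by
    have h1 := ruzsa_triangle_inequality_add_sub_sub B B B
    have h2 : ((B + B).card : ℝ) * B.card ≤ ((B - B).card : ℝ) * (B - B).card := by exact_mod_cast h1
    refine le_of_mul_le_mul_right ?_ hBc
    calc _ ≤ _ := h2
      _ ≤ (X ^ 71 * B.card) * (X ^ 71 * B.card) := by gcongr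
      _ = _ := by ring
  -- popular dilates
  have hDB : ((L (j + 1)).card : ℝ) ≤ (32 * X ^ 6) * B.card := by
    calc ((L (j + 1)).card : ℝ) ≤ X * (L j).card := hD
      _ ≤ X * (8 * (4 * X ^ 5) * B.card) := by gcongr
      _ = _ := by ring
  obtain ⟨T, hT1, hT2⟩ := popular B (L (j + 1)) H hBne h0 hHne (by
    intro h hh z hz
    obtain ⟨b, hb, rfl⟩ := mem_smul_finset.1 hz
    exact hstep j hjJ h hh b (hBL hb)) (32 * X ^ 6) (by positivity) hDB
  have hTSm : ∀ t ∈ T, Sm B (X ^ 300) t := by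
    intro t ht
    obtain ⟨ht0, ht1⟩ := hT2 t ht
    refine (Sm_of_inter B hBne t ht0 (X ^ 142) (2 * (32 * X ^ 6)) (by positivity) hK2 ht1).mono ?_
    calc (X ^ 142) ^ 2 * (2 * (32 * X ^ 6)) = 4 ^ 3 * X ^ 290 := by ring
      _ ≤ X ^ 3 * X ^ 290 := by gcongr
      _ = X ^ 293 := by ring
      _ ≤ X ^ 300 := pow_le_pow_right₀ hX1 (by norm_num)
  have hTcard : p < T.card ^ (2 ^ m) := by
    have h1 : (H.card : ℝ) / X ^ 9 ≤ T.card := by
      rw [div_le_iff₀ (by positivity)]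
      calc (H.card : ℝ) ≤ 2 * (32 * X ^ 6) * T.card := hT1
        _ = 4 ^ 3 * X ^ 6 * T.card := by ring
        _ ≤ X ^ 3 * X ^ 6 * T.card := by gcongr
        _ = _ := by ring
    have h2 : (p : ℝ) < (T.card : ℝ) ^ (2 ^ m) := by
      refine hT.trans_le ?_
      gcongr
    exact_mod_cast h2
  have hR1 : (1 : ℝ) ≤ X ^ 300 := one_le_pow₀ hX1
  have hall := grow B hBne m (X ^ 300) hR1
    (hK2.trans (mul_le_mul_of_nonneg_right (pow_le_pow_right₀ hX1 (by norm_num)) hBc.le))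
    (hK1.trans (mul_le_mul_of_nonneg_right (pow_le_pow_right₀ hX1 (by norm_num)) hBc.le)) T hTSm hTcard
  have hfin := all_small B hBne _ hall
  rw [← pow_mul] at hfin
  clear hall hTcard hT
  generalize 300 * (256 ^ m * 16) = E at hfin hc2 hc3
  -- lower bound of |B|
  have hlow : 4 * X ^ E ≤ B.card := by
    have h1 : (H.card : ℝ) ≤ (L j).card := by exact_mod_cast hHL j hj1
    have h2 : X ^ (E + 9) ≤ 8 * (4 * X ^ 5) * B.card := (hc2.trans h1).trans hB1
    have h3 : 8 * (4 * X ^ 5) * (B.card : ℝ) ≤ X ^ 8 * B.card := by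
      gcongr
      calc 8 * (4 * X ^ 5) = 32 * X ^ 5 := by ring
        _ ≤ 4 ^ 3 * X ^ 5 := by gcongr; norm_num
        _ ≤ X ^ 3 * X ^ 5 := by gcongr
        _ = X ^ 8 := by ring
    have h4 : X ^ 8 * (4 * X ^ E) ≤ X ^ 8 * B.card := by
      calc X ^ 8 * (4 * X ^ E) ≤ X ^ 8 * (X * X ^ E) := by gcongr
        _ = X ^ (E + 9) := by ring
        _ ≤ _ := h2.trans h3
    exact le_of_mul_le_mul_left h4 (by positivity)
  have hup : 4 * X ^ E * B.card ≤ p := by
    have h1 := card_spec A (L j) hAne (α j) (hαpos j).le (fun ξ hξ => (hLmem j ξ).1 hξ)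
    have h2 : (B.card : ℝ) ≤ (L j).card := by exact_mod_cast card_le_card hBL
    have h3 : 1 ≤ (X * α j) ^ 2 := one_le_pow₀ hαX
    calc 4 * X ^ E * B.card ≤ X * X ^ E * B.card := by gcongr
      _ = X ^ (E + 1) * B.card * 1 := by ring
      _ ≤ X ^ (E + 1) * (L j).card * (X * α j) ^ 2 := by gcongr
      _ = X ^ (E + 3) * ((L j).card * α j ^ 2) := by ring
      _ ≤ A.card * ((L j).card * α j ^ 2) := by
          gcongr
      _ = (L j).card * (α j ^ 2 * A.card) := by ring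
      _ ≤ p := h1
  have h5 : X ^ E * p ≤ p * B.card / 4 := by nlinarith
  have h6 : X ^ E * (B.card : ℝ) ^ 2 ≤ p * B.card / 4 := by nlinarith
  have h7 : 0 < (p : ℝ) * B.card := by positivity
  nlinarith

end Pool.Agent.Run7.h90.BGK
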