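import Mathlib
import Pool.Agent.Run7.h90.BGK.Core

set_option autoImplicit false

/-! # The theorem of Bourgain, Glibichuk and Konyagin: final forms -/

open Finset
open scoped Pointwise

namespace Pool.Agent.Run7.h90.BGK

/-- **Almost invariant sets.** -/
theorem bgk (δ : ℝ) (hδ : 0 < δ) : ∃ ε η : ℝ, 0 < ε ∧ 0 < η ∧ η ≤ δ ∧ ∃ P₀ : ℕ,
    ∀ (p : ℕ) [Fact p.Prime], P₀ ≤ p → ∀ A H : Finset (ZMod p), (p : ℝ) ^ δ ≤ A.card → (p : ℝ) ^ δ ≤ H.card →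
      (0 : ZMod p) ∉ H → (∀ h ∈ H, ((A.filter (fun a => h * a ∉ A)).card : ℝ) ≤ (p : ℝ) ^ (-η) * A.card) →
      ∀ ξ : ZMod p, ξ ≠ 0 → ‖ES A ξ‖ ≤ (p : ℝ) ^ (-ε) * A.card := by
  obtain ⟨m, hm⟩ := exists_nat_gt (4 / δ)
  have hE16 : (16 : ℝ) ≤ (256 : ℝ) ^ m * 16 := by
    have : (1 : ℝ) ≤ (256 : ℝ) ^ m := one_le_pow₀ (by norm_num)
    linarith
  set E : ℝ := (256 : ℝ) ^ m * 16 with hE
  set θ : ℝ := δ / (1000 * E) with hθ
  have hE0 : 0 < E := by linarith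
  have hθ0 : 0 < θ := by positivity
  have hθE : θ * (1000 * E) = δ := by rw [hθ]; field_simp
  set J : ℕ := ⌈1 / θ⌉₊ with hJ
  have hJθ : 1 / θ ≤ J := Nat.le_ceil _
  have hJ1 : 1 ≤ J := by
    rw [Nat.one_le_iff_ne_zero]
    intro h
    rw [h, Nat.cast_zero] at hJθ
    have : 0 < 1 / θ := by positivity
    linarith
  set ε : ℝ := θ / 2 ^ (J + 3) with hε
  have hε0 : 0 < ε := by positivity
  have hεθ : ε ≤ θ := by
    rw [hε]
    exact div_le_self hθ0.le (one_le_pow₀ (by norm_num))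
  have hθδ : 2 * θ ≤ δ := by nlinarith
  refine ⟨ε, 2 * θ, hε0, by positivity, hθδ, ⌈(4 : ℝ) ^ (1 / ε)⌉₊, ?_⟩
  intro p _ hp A H hA hH h0 hinv ξ hξ
  have hp1 : (1 : ℝ) ≤ p := by exact_mod_cast (Fact.out : p.Prime).one_lt.le
  have hp1' : (1 : ℝ) < p := by exact_mod_cast (Fact.out : p.Prime).one_lt
  have hp0 : (0 : ℝ) < p := by linarith
  have hpε : 4 ≤ (p : ℝ) ^ ε := by
    have h1 : (4 : ℝ) ^ (1 / ε) ≤ p := (Nat.le_ceil _).trans (by exact_mod_cast hp)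
    calc (4 : ℝ) = ((4 : ℝ) ^ (1 / ε)) ^ ε := by
          rw [← Real.rpow_mul (by norm_num), one_div_mul_cancel hε0.ne', Real.rpow_one]
      _ ≤ _ := Real.rpow_le_rpow (by positivity) h1 hε0.le
  have hX4 : 4 ≤ (p : ℝ) ^ θ := hpε.trans (Real.rpow_le_rpow_of_exponent_le hp1 hεθ)
  by_contra hcon
  push Not at hcon
  have hpow : ∀ n : ℕ, ((p : ℝ) ^ θ) ^ n = (p : ℝ) ^ (θ * n) := fun n => by
    rw [← Real.rpow_natCast, ← Real.rpow_mul hp0.le]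
  refine core A H h0 J hJ1 m ((p : ℝ) ^ θ) hX4 ((p : ℝ) ^ (-ε)) (by positivity)
    (Real.rpow_le_one_of_one_le_of_nonpos hp1 (by linarith)) ((p : ℝ) ^ (-(2 * θ))) ?_ hinv ?_ ?_ ξ hξ hcon.le ?_ ?_ ?_
  · rw [le_div_iff₀ (by positivity)]
    have h1 : (p : ℝ) ^ (-(2 * θ)) * ((p : ℝ) ^ θ * (p : ℝ) ^ θ) = 1 := by
      rw [← Real.rpow_add hp0, ← Real.rpow_add hp0]
      rw [show -(2 * θ) + (θ + θ) = 0 by ring, Real.rpow_zero]
    have h2 : 0 < (p : ℝ) ^ (-(2 * θ)) := by positivity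
    calc (p : ℝ) ^ (-(2 * θ)) * (4 * (p : ℝ) ^ θ) ≤ (p : ℝ) ^ (-(2 * θ)) * ((p : ℝ) ^ θ * (p : ℝ) ^ θ) := by gcongr
      _ = 1 := h1
      _ ≤ _ := le_rfl
  · apply Real.rpow_le_rpow_of_exponent_le hp1
    rw [inv_le_comm₀ (by exact_mod_cast hJ1) hθ0, ← one_div]
    exact hJθ
  · -- the last level
    have h1 : (p : ℝ) ^ (-(2 * ε)) ≤ (p : ℝ) ^ (-ε) / 2 := by
      have e1 : (p : ℝ) ^ (-(2 * ε)) * (p : ℝ) ^ ε = (p : ℝ) ^ (-ε) := by
        rw [← Real.rpow_add hp0]; congr 1; ring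
      have e2 : 0 < (p : ℝ) ^ (-(2 * ε)) := by positivity
      rw [le_div_iff₀ (by norm_num), ← e1]
      gcongr
      linarith
    have h2 : 1 / (p : ℝ) ^ θ ≤ ((p : ℝ) ^ (-(2 * ε))) ^ (2 ^ (J + 1)) := by
      rw [← Real.rpow_natCast, ← Real.rpow_mul hp0.le, one_div, ← Real.rpow_neg hp0.le]
      apply Real.rpow_le_rpow_of_exponent_le hp1
      push_cast
      have e3 : ε * 2 ^ (J + 3) = θ := by rw [hε]; field_simp
      have e4 : -(2 * ε) * 2 ^ (J + 1) = -(θ / 2) := by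
        rw [← e3]; ring
      rw [e4]
      linarith
    have h3 : ((p : ℝ) ^ (-(2 * ε))) ^ (2 ^ (J + 1)) ≤ ((p : ℝ) ^ (-ε) / 2) ^ (2 ^ (J + 1)) :=
      pow_le_pow_left₀ (by positivity) h1 _
    have h4 : 0 ≤ ((p : ℝ) ^ (-ε) / 2) ^ (2 ^ (J + 1)) := by positivity
    linarith
  · -- growth
    have h1 : (p : ℝ) ^ (δ / 2) ≤ H.card / ((p : ℝ) ^ θ) ^ 9 := by
      rw [le_div_iff₀ (by positivity), hpow, ← Real.rpow_add hp0]
      refine le_trans (Real.rpow_le_rpow_of_exponent_le hp1 ?_) hH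
      push_cast
      nlinarith
    refine lt_of_lt_of_le ?_ (pow_le_pow_left₀ (by positivity) h1 _)
    rw [← Real.rpow_natCast, ← Real.rpow_mul hp0.le]
    nth_rewrite 1 [← Real.rpow_one (p : ℝ)]
    apply Real.rpow_lt_rpow_of_exponent_lt hp1'
    push_cast
    have h2 : (m : ℝ) < 2 ^ m := by exact_mod_cast Nat.lt_two_pow_self
    rw [div_lt_iff₀ hδ] at hm
    nlinarith
  · rw [hpow]
    refine le_trans (Real.rpow_le_rpow_of_exponent_le hp1 ?_) hH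
    push_cast
    rw [← hE]
    nlinarith
  · rw [hpow]
    refine le_trans (Real.rpow_le_rpow_of_exponent_le hp1 ?_) hA
    push_cast
    rw [← hE]
    nlinarith

/-- **Multiplicative subgroups** (Bourgain, Glibichuk, Konyagin). -/
theorem bgk_subgroup (δ : ℝ) (hδ : 0 < δ) : ∃ ε : ℝ, 0 < ε ∧ ∃ P₀ : ℕ,
    ∀ (p : ℕ) [Fact p.Prime], P₀ ≤ p → ∀ (H : Finset (ZMod p)), (0 : ZMod p) ∉ H →
      (∀ a ∈ H, ∀ b ∈ H, a * b ∈ H) → (p : ℝ) ^ δ ≤ H.card →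
      ∀ ξ : ZMod p, ξ ≠ 0 → ‖∑ h ∈ H, (ZMod.stdAddChar (ξ * h) : ℂ)‖ ≤ (p : ℝ) ^ (-ε) * H.card := by
  obtain ⟨ε, η, hε, hη, -, P₀, h⟩ := bgk δ hδ
  refine ⟨ε, hε, P₀, ?_⟩
  intro p _ hp H h0 hmul hH ξ hξ
  refine h p hp H H hH hH h0 ?_ ξ hξ
  intro a ha
  rw [filter_false_of_mem (fun b hb => not_not.2 (hmul a ha b hb)), card_empty, Nat.cast_zero]
  positivity

/-- **Incomplete geometric progressions** (Bourgain, Glibichuk, Konyagin). -/
theorem bgk_geom (δ : ℝ) (hδ : 0 < δ) : ∃ ε : ℝ, 0 < ε ∧ ∃ P₀ : ℕ,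
    ∀ (p : ℕ) [Fact p.Prime], P₀ ≤ p → ∀ (g : ZMod p), g ≠ 0 → ∀ N : ℕ, (p : ℝ) ^ δ ≤ N → N ≤ orderOf g →
      ∀ ξ : ZMod p, ξ ≠ 0 → ‖∑ n ∈ range N, (ZMod.stdAddChar (ξ * g ^ n) : ℂ)‖ ≤ (p : ℝ) ^ (-ε) * N := by
  classical
  obtain ⟨ε, η, hε, hη, hηδ, P₀, h⟩ := bgk (δ / 2) (by positivity)
  refine ⟨ε, hε, P₀, ?_⟩
  intro p _ hp g hg N hN hNT ξ hξ
  have hp1 : (1 : ℝ) ≤ p := by exact_mod_cast (Fact.out : p.Prime).one_lt.le
  have hp0 : (0 : ℝ) < p := by linarith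
  have hinj : Set.InjOn (fun n => g ^ n) (range N : Set ℕ) := by
    intro a ha b hb hab
    rw [mem_coe, mem_range] at ha hb
    exact pow_injOn_Iio_orderOf (lt_of_lt_of_le ha hNT) (lt_of_lt_of_le hb hNT) hab
  set A : Finset (ZMod p) := (range N).image (fun n => g ^ n) with hA
  have hAc : A.card = N := by rw [hA, card_image_of_injOn hinj, card_range]
  set N' : ℕ := ⌊(p : ℝ) ^ (-η) * N⌋₊ + 1 with hN'
  have hN0 : (0 : ℝ) < N := lt_of_lt_of_le (by positivity) hN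
  have hN0' : 0 < N := by exact_mod_cast hN0
  have hlt : (p : ℝ) ^ (-η) < 1 := Real.rpow_lt_one_of_one_lt_of_neg
    (by exact_mod_cast (Fact.out : p.Prime).one_lt) (by linarith)
  have hN'N : N' ≤ N := by
    rw [hN', Nat.add_one_le_iff, Nat.floor_lt (by positivity)]
    nlinarith
  set H : Finset (ZMod p) := (range N').image (fun n => g ^ n) with hH
  have hinj' : Set.InjOn (fun n => g ^ n) (range N' : Set ℕ) := by
    intro a ha b hb hab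
    rw [mem_coe, mem_range] at ha hb
    exact hinj (by rw [mem_coe, mem_range]; omega) (by rw [mem_coe, mem_range]; omega) hab
  have hHc : H.card = N' := by rw [hH, card_image_of_injOn hinj', card_range]
  have e1 : (p : ℝ) ^ (δ / 2) ≤ A.card := by
    rw [hAc]
    exact (Real.rpow_le_rpow_of_exponent_le hp1 (by linarith)).trans hN
  have e2 : (p : ℝ) ^ (δ / 2) ≤ H.card := by
    rw [hHc, hN']
    push_cast
    calc (p : ℝ) ^ (δ / 2) = (p : ℝ) ^ (-(δ / 2)) * (p : ℝ) ^ δ := by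
          rw [← Real.rpow_add hp0]; congr 1; ring
      _ ≤ (p : ℝ) ^ (-η) * N := by
          gcongr
      _ ≤ _ := (Nat.lt_floor_add_one _).le
  have e3 : (0 : ZMod p) ∉ H := by
    rw [hH, mem_image]
    rintro ⟨n, -, hn⟩
    exact pow_ne_zero n hg hn
  have e4 : ∀ h ∈ H, ((A.filter (fun a => h * a ∉ A)).card : ℝ) ≤ (p : ℝ) ^ (-η) * A.card := by
    intro x hx
    rw [hH, mem_image] at hx
    obtain ⟨k, hk, rfl⟩ := hx
    rw [mem_range, hN'] at hk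
    have h1 : A.filter (fun a => g ^ k * a ∉ A) ⊆ (Ico (N - k) N).image (fun n => g ^ n) := by
      intro a ha
      rw [mem_filter] at ha
      obtain ⟨n, hn, rfl⟩ := mem_image.1 ha.1
      rw [mem_range] at hn
      refine mem_image.2 ⟨n, ?_, rfl⟩
      rw [mem_Ico]
      refine ⟨?_, hn⟩
      by_contra hlt2
      apply ha.2
      rw [hA, mem_image]
      exact ⟨k + n, mem_range.2 (by omega), pow_add g k n⟩
    have h2 : (A.filter (fun a => g ^ k * a ∉ A)).card ≤ k := by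
      refine (card_le_card h1).trans (card_image_le.trans ?_)
      rw [Nat.card_Ico]
      omega
    rw [hAc]
    have h3 : (k : ℝ) ≤ (p : ℝ) ^ (-η) * N := by
      have : k ≤ ⌊(p : ℝ) ^ (-η) * N⌋₊ := by omega
      exact (Nat.le_floor_iff (by positivity)).1 this
    exact le_trans (by exact_mod_cast h2) h3
  have h5 := h p hp A H e1 e2 e3 e4 ξ hξ
  rw [hAc] at h5
  refine le_trans (le_of_eq ?_) h5
  congr 1
  unfold ES
  rw [hA, sum_image hinj]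

end Pool.Agent.Run7.h90.BGK
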