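import Mathlib
import Pool.Agent.Run7.h90.BGK.Final
import Pool.Agent.N825.FC.Core

set_option autoImplicit false

/-! # Powers of two modulo the prime factors of the Fermat numbers -/

open Finset
open Pool.Agent.N825.FC (rep rep_gt rep_le rep_cast rep_unique eqd)

namespace Pool.Agent.Run7.h90.BGK

theorem two_pow_eq {m p : ℕ} [Fact p.Prime] (hd : p ∣ Nat.fermatNumber m) : (2 : ZMod p) ^ (2 ^ m) = -1 := by
  have h1 : ((Nat.fermatNumber m : ℕ) : ZMod p) = 0 := (ZMod.natCast_eq_zero_iff _ _).2 hd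
  unfold Nat.fermatNumber at h1
  push_cast at h1
  exact eq_neg_of_add_eq_zero_left h1

theorem odd_of_dvd {m p : ℕ} (hd : p ∣ Nat.fermatNumber m) : Odd p :=
  Odd.of_dvd_nat (Nat.odd_fermatNumber m) hd

theorem order_two {m p : ℕ} [Fact p.Prime] (hd : p ∣ Nat.fermatNumber m) :
    orderOf (2 : ZMod p) = 2 ^ (m + 1) := by
  have h2 : p ≠ 2 := fun h => by
    have := odd_of_dvd hd
    rw [h] at this
    exact (by decide : ¬ Odd 2) this
  have h3 : (2 : ZMod p) ≠ 0 := by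
    have := ZMod.prime_ne_zero p 2 h2
    exact_mod_cast this
  have : Fact (2 : ℕ).Prime := ⟨Nat.prime_two⟩
  apply orderOf_eq_prime_pow
  · rw [two_pow_eq hd]
    intro h
    apply h3
    linear_combination (-1 : ZMod p) * h
  · rw [pow_succ 2 m, pow_mul, two_pow_eq hd]
    ring

theorem two_ne {m p : ℕ} [Fact p.Prime] (hd : p ∣ Nat.fermatNumber m) : (2 : ZMod p) ≠ 0 := by
  intro h
  have h1 := two_pow_eq hd
  rw [h, zero_pow (by positivity)] at h1
  have h2 : (1 : ZMod p) = 0 := by linear_combination h1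
  exact one_ne_zero h2

theorem lt_of_dvd {m p : ℕ} [hp : Fact p.Prime] (hd : p ∣ Nat.fermatNumber m) : 2 ^ (m + 1) < p := by
  have h1 := order_two hd
  have h2 : orderOf (2 : ZMod p) ∣ p - 1 := ZMod.orderOf_dvd_card_sub_one (two_ne hd)
  rw [h1] at h2
  have h3 := Nat.le_of_dvd (by have := hp.out.two_le; omega) h2
  have := hp.out.two_le
  omega

/-- the numerical part: the error term -/
theorem num (ε : ℝ) (hε : 0 < ε) (hε1 : ε ≤ 1) : ∃ m₀ : ℕ, ∀ m : ℕ, m₀ ≤ m → ∀ x : ℝ, (2 : ℝ) ^ m ≤ x →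
    x ^ (-ε) * (2 + Real.log x) + 4 / x ≤ (2 : ℝ) ^ (-(ε / 2 * m)) := by
  have hA : Filter.Tendsto (fun x : ℝ => Real.log x * x ^ (-(ε / 2))) Filter.atTop (nhds 0) := by
    have := (isLittleO_log_rpow_atTop (by positivity : 0 < ε / 2)).tendsto_div_nhds_zero
    refine this.congr' ?_
    filter_upwards [Filter.eventually_gt_atTop 0] with x hx
    rw [Real.rpow_neg hx.le, div_eq_mul_inv]
  have hB : Filter.Tendsto (fun x : ℝ => x ^ (-(ε / 2))) Filter.atTop (nhds 0) :=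
    tendsto_rpow_neg_atTop (by positivity)
  have hC : Filter.Tendsto (fun x : ℝ => x ^ (-(1 / 2 : ℝ))) Filter.atTop (nhds 0) :=
    tendsto_rpow_neg_atTop (by norm_num)
  have hsum : Filter.Tendsto (fun x : ℝ => 2 * x ^ (-(ε / 2)) + Real.log x * x ^ (-(ε / 2)))
      Filter.atTop (nhds 0) := by
    have := (hB.const_mul 2).add hA
    simpa using this
  have e1 := hsum.eventually (gt_mem_nhds (by norm_num : (0 : ℝ) < 1 / 2))
  have e2 := hC.eventually (gt_mem_nhds (by norm_num : (0 : ℝ) < 1 / 8))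
  obtain ⟨X, hX⟩ := Filter.eventually_atTop.1 (e1.and e2)
  obtain ⟨m₀, hm₀⟩ := exists_nat_gt X
  refine ⟨m₀, fun m hm x hx => ?_⟩
  have hm2 : (m : ℝ) < 2 ^ m := by exact_mod_cast Nat.lt_two_pow_self
  have hxX : X ≤ x := by
    have : (m₀ : ℝ) ≤ m := by exact_mod_cast hm
    linarith
  obtain ⟨h3, h4⟩ := hX x hxX
  have h2m : (1 : ℝ) ≤ (2 : ℝ) ^ m := one_le_pow₀ (by norm_num)
  have hx0 : 0 < x := by linarith
  have hx1 : 1 ≤ x := by linarith
  have h5 : x ^ (-(ε / 2)) ≤ (2 : ℝ) ^ (-(ε / 2 * m)) := by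
    rw [show -(ε / 2 * m) = (m : ℝ) * (-(ε / 2)) by ring, Real.rpow_mul (by norm_num), Real.rpow_natCast]
    exact Real.rpow_le_rpow_of_nonpos (by positivity) hx (by linarith)
  have h6 : x ^ (-ε) * (2 + Real.log x) = x ^ (-(ε / 2)) * (2 * x ^ (-(ε / 2)) + Real.log x * x ^ (-(ε / 2))) := by
    rw [show -ε = -(ε / 2) + -(ε / 2) by ring, Real.rpow_add hx0]
    ring
  have h7 : 4 / x ≤ x ^ (-(ε / 2)) * (1 / 2) := by
    have e3 : 4 / x = 4 * (x ^ (-(1 / 2 : ℝ)) * x ^ (-(1 / 2 : ℝ))) := by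
      rw [← Real.rpow_add hx0, show -(1 / 2 : ℝ) + -(1 / 2) = -1 by ring, Real.rpow_neg_one]
      ring
    have e4 : x ^ (-(1 / 2 : ℝ)) ≤ x ^ (-(ε / 2)) := Real.rpow_le_rpow_of_exponent_le hx1 (by linarith)
    rw [e3]
    have e5 : 0 < x ^ (-(1 / 2 : ℝ)) := by positivity
    have e6 : 0 < x ^ (-(ε / 2)) := by positivity
    nlinarith
  have h8 : 0 < x ^ (-(ε / 2)) := by positivity
  rw [h6]
  nlinarith

/-- **Powers of two modulo a small prime factor of a Fermat number**: in every window of exponents of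
length `L ≥ 2 ^ (δ m)` the residues of `a 2 ^ n` are equidistributed. -/
theorem win (C δ : ℝ) (hC : 1 ≤ C) (hδ : 0 < δ) : ∃ ε : ℝ, 0 < ε ∧ ε ≤ 1 ∧ ∃ m₀ : ℕ, ∀ m : ℕ, m₀ ≤ m →
    ∀ (p : ℕ) [Fact p.Prime], p ∣ Nat.fermatNumber m → (p : ℝ) ≤ (2 : ℝ) ^ (C * m) →
    ∀ a : ZMod p, a ≠ 0 → ∀ n₀ L : ℕ, (2 : ℝ) ^ (δ * m) ≤ L → L ≤ 2 ^ (m + 1) →
    ∀ (u : ℤ) (l : ℕ), l ≤ p → ∀ w : ℝ, |(l : ℝ) - w * p| ≤ 1 →
    |(((range L).filter fun n => rep u (a * 2 ^ (n₀ + n)) ≤ u + l).card : ℝ) - L * w| ≤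
      (2 : ℝ) ^ (-(ε * m)) * L := by
  classical
  obtain ⟨ε, hε, P₀, h⟩ := bgk_geom (δ / C) (by positivity)
  set ε' := min ε 1 with hε'
  have hε'0 : 0 < ε' := lt_min hε one_pos
  obtain ⟨m₁, hm₁⟩ := num ε' hε'0 (min_le_right _ _)
  refine ⟨ε' / 2, by positivity, by have := min_le_right ε 1; linarith, max m₁ P₀, ?_⟩
  intro m hm p _ hd hpC a ha n₀ L hL1 hL2 u l hl w hw
  have hlt := lt_of_dvd hd
  have hp0 : (0 : ℝ) < p := by exact_mod_cast (Fact.out : p.Prime).pos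
  have hp1 : (1 : ℝ) ≤ p := by exact_mod_cast (Fact.out : p.Prime).one_lt.le
  have hpm : (2 : ℝ) ^ m ≤ p := by
    have h1 : 2 ^ m ≤ p := (Nat.pow_le_pow_right (by norm_num) (Nat.le_succ m)).trans hlt.le
    exact_mod_cast h1
  have hpP : P₀ ≤ p := by
    have h1 : m < 2 ^ m := Nat.lt_two_pow_self
    have h2 : 2 ^ m < 2 ^ (m + 1) := Nat.pow_lt_pow_right (by norm_num) (Nat.lt_succ_self m)
    have h3 := (le_max_right m₁ P₀).trans hm
    omega
  have hpδ : (p : ℝ) ^ (δ / C) ≤ L := by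
    refine le_trans ?_ hL1
    calc (p : ℝ) ^ (δ / C) ≤ ((2 : ℝ) ^ (C * m)) ^ (δ / C) := Real.rpow_le_rpow hp0.le hpC (by positivity)
      _ = (2 : ℝ) ^ (δ * m) := by
          rw [← Real.rpow_mul (by norm_num)]
          congr 1
          field_simp
  have hsum : ∀ ξ : ZMod p, ξ ≠ 0 →
      ‖∑ n ∈ range L, (ZMod.stdAddChar (ξ * (a * 2 ^ (n₀ + n))) : ℂ)‖ ≤ (p : ℝ) ^ (-ε') * L := by
    intro ξ hξ
    have h1 := h p hpP 2 (two_ne hd) L hpδ (by rw [order_two hd]; exact hL2) (ξ * (a * 2 ^ n₀))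
      (mul_ne_zero hξ (mul_ne_zero ha (pow_ne_zero _ (two_ne hd))))
    refine le_trans (le_of_eq ?_) (h1.trans ?_)
    · congr 1
      refine sum_congr rfl fun n _ => ?_
      rw [pow_add]
      congr 1
      ring
    · gcongr
      exact min_le_left _ _
  have heq := eqd p (range L) 1 (fun n _ => a * 2 ^ (n₀ + n)) ((p : ℝ) ^ (-ε') * L) (by
    intro ξ hξ
    have hξ0 : ξ 0 ≠ 0 := by
      intro h0
      apply hξ
      funext j
      rw [Subsingleton.elim j 0, h0]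
      rfl
    have h1 := hsum (ξ 0) hξ0
    simpa using h1) (by positivity) (fun _ => u) l hl 1 le_rfl (Nat.coprime_one_right p) (fun _ => 0)
  rw [card_range] at heq
  simp only [Nat.cast_one, div_one, pow_one, one_dvd, and_true, forall_const] at heq
  have hmm := hm₁ m ((le_max_left _ _).trans hm) p hpm
  have hLnn : (0 : ℝ) ≤ L := Nat.cast_nonneg _
  have hlw : |(L : ℝ) * ((l : ℝ) / p) - L * w| ≤ L * (1 / p) := by
    rw [← mul_sub, abs_mul, abs_of_nonneg hLnn]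
    apply mul_le_mul_of_nonneg_left _ hLnn
    rw [div_sub' hp0.ne', abs_div, abs_of_pos hp0, mul_comm (p : ℝ) w]
    gcongr
  calc |(((range L).filter fun n => rep u (a * 2 ^ (n₀ + n)) ≤ u + l).card : ℝ) - L * w|
      ≤ |(((range L).filter fun n => rep u (a * 2 ^ (n₀ + n)) ≤ u + l).card : ℝ) - L * ((l : ℝ) / p)| +
        |(L : ℝ) * ((l : ℝ) / p) - L * w| := abs_sub_le _ _ _
    _ ≤ ((p : ℝ) ^ (-ε') * L * (2 + Real.log p) + L * (1 / p)) + L * (1 / p) := by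
        gcongr
    _ ≤ L * ((p : ℝ) ^ (-ε') * (2 + Real.log p) + 4 / p) := by
        have h9 : (0 : ℝ) ≤ L * (1 / p) := by positivity
        have h10 : (L : ℝ) * ((p : ℝ) ^ (-ε') * (2 + Real.log p) + 4 / p) =
            (p : ℝ) ^ (-ε') * L * (2 + Real.log p) + 4 * (L * (1 / p)) := by ring
        rw [h10]
        linarith
    _ ≤ L * (2 : ℝ) ^ (-(ε' / 2 * m)) := by gcongr
    _ = _ := by ring

end Pool.Agent.Run7.h90.BGK
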