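import Mathlib
import Pool.Agent.Run7.h90.BGK.FerA

set_option autoImplicit false

/-! # Digits of the cofactors of the Fermat numbers -/

open Finset
open Pool.Agent.N825.FC (rep rep_gt rep_le rep_cast rep_unique)

namespace Pool.Agent.Run7.h90.BGK

theorem mod_eq {M j p N : ℕ} (hp : 1 < p) (hj : 1 ≤ j) (hjM : j ≤ M) (hN : p * N = 2 ^ M + 1) :
    p * (N % 2 ^ j) = 2 ^ j * (2 ^ (M - j) % p) + 1 := by
  have h1 := Nat.div_add_mod (2 ^ (M - j)) p
  set Q := 2 ^ (M - j) / p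
  set r := 2 ^ (M - j) % p
  have hr : r < p := Nat.mod_lt _ (by omega)
  have h2 : 2 ^ M = 2 ^ j * 2 ^ (M - j) := by rw [← pow_add]; congr 1; omega
  have h3 : p * N = p * (2 ^ j * Q) + (2 ^ j * r + 1) := by
    rw [hN, h2, ← h1]; ring
  have h4 : 2 ^ j * Q ≤ N := by
    by_contra hcon
    push Not at hcon
    have : p * N < p * (2 ^ j * Q) := Nat.mul_lt_mul_of_pos_left hcon (by omega)
    omega
  obtain ⟨t, rfl⟩ := Nat.exists_eq_add_of_le h4
  have h5 : p * t = 2 ^ j * r + 1 := by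
    rw [mul_add] at h3
    omega
  have h2j : 2 ≤ 2 ^ j := by
    calc 2 = 2 ^ 1 := rfl
      _ ≤ 2 ^ j := Nat.pow_le_pow_right (by norm_num) hj
  have h6 : t < 2 ^ j := by
    by_contra hcon
    push Not at hcon
    have h7 : p * 2 ^ j ≤ p * t := Nat.mul_le_mul_left p hcon
    have h8 : 2 ^ j * (r + 1) ≤ 2 ^ j * p := Nat.mul_le_mul_left _ hr
    rw [h5] at h7
    have h9 : 2 ^ j * (r + 1) = 2 ^ j * r + 2 ^ j := by ring
    have h10 : p * 2 ^ j = 2 ^ j * p := mul_comm _ _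
    omega
  rw [add_comm, Nat.add_mul_mod_self_left, Nat.mod_eq_of_lt h6]
  exact h5

theorem digit_iff {M p N i k w : ℕ} (hp : 1 < p) (hi : 1 ≤ i) (hM : i + k ≤ M) (hN : p * N = 2 ^ M + 1) :
    N / 2 ^ i % 2 ^ k = w ↔ w * p ≤ 2 ^ k * (2 ^ (M - (i + k)) % p) ∧
      2 ^ k * (2 ^ (M - (i + k)) % p) < (w + 1) * p := by
  have h1 := mod_eq hp (by omega : 1 ≤ i + k) hM hN
  set r := 2 ^ (M - (i + k)) % p
  rw [← Nat.mod_mul_right_div_self, ← pow_add]
  set t := N % 2 ^ (i + k)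
  have h2i : 2 ≤ 2 ^ i := by
    calc 2 = 2 ^ 1 := rfl
      _ ≤ 2 ^ i := Nat.pow_le_pow_right (by norm_num) hi
  rw [pow_add] at h1
  have h3 : t / 2 ^ i = w ↔ w * 2 ^ i ≤ t ∧ t < (w + 1) * 2 ^ i := by
    rw [Nat.div_eq_iff (by positivity)]
    constructor
    · rintro ⟨h4, h5⟩
      refine ⟨h4, ?_⟩
      rw [add_mul, one_mul]
      have : 0 < 2 ^ i := by positivity
      omega
    · rintro ⟨h4, h5⟩
      refine ⟨h4, ?_⟩
      rw [add_mul, one_mul] at h5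
      omega
  rw [h3]
  have e1 : w * 2 ^ i ≤ t ↔ w * p ≤ 2 ^ k * r := by
    constructor
    · intro h
      by_contra hcon
      push Not at hcon
      have h4 : p * (w * 2 ^ i) ≤ p * t := Nat.mul_le_mul_left p h
      have h5 : 2 ^ i * (2 ^ k * r + 1) ≤ 2 ^ i * (w * p) := Nat.mul_le_mul_left _ hcon
      rw [h1] at h4
      have h6 : p * (w * 2 ^ i) = 2 ^ i * (w * p) := by ring
      have h7 : 2 ^ i * (2 ^ k * r + 1) = 2 ^ i * 2 ^ k * r + 2 ^ i := by ring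
      omega
    · intro h
      by_contra hcon
      push Not at hcon
      have h4 : p * (t + 1) ≤ p * (w * 2 ^ i) := Nat.mul_le_mul_left p hcon
      have h5 : 2 ^ i * (w * p) ≤ 2 ^ i * (2 ^ k * r) := Nat.mul_le_mul_left _ h
      have h6 : p * (w * 2 ^ i) = 2 ^ i * (w * p) := by ring
      have h7 : 2 ^ i * (2 ^ k * r) = 2 ^ i * 2 ^ k * r := by ring
      have h8 : p * (t + 1) = p * t + p := by ring
      omega
  have e2 : t < (w + 1) * 2 ^ i ↔ 2 ^ k * r < (w + 1) * p := by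
    constructor
    · intro h
      by_contra hcon
      push Not at hcon
      have h4 : p * (t + 1) ≤ p * ((w + 1) * 2 ^ i) := Nat.mul_le_mul_left p h
      have h5 : 2 ^ i * ((w + 1) * p) ≤ 2 ^ i * (2 ^ k * r) := Nat.mul_le_mul_left _ hcon
      have h6 : p * ((w + 1) * 2 ^ i) = 2 ^ i * ((w + 1) * p) := by ring
      have h7 : 2 ^ i * (2 ^ k * r) = 2 ^ i * 2 ^ k * r := by ring
      have h8 : p * (t + 1) = p * t + p := by ring
      omega
    · intro h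
      by_contra hcon
      push Not at hcon
      have h4 : p * ((w + 1) * 2 ^ i) ≤ p * t := Nat.mul_le_mul_left p hcon
      have h5 : 2 ^ i * (2 ^ k * r + 1) ≤ 2 ^ i * ((w + 1) * p) := Nat.mul_le_mul_left _ h
      rw [h1] at h4
      have h6 : p * ((w + 1) * 2 ^ i) = 2 ^ i * ((w + 1) * p) := by ring
      have h7 : 2 ^ i * (2 ^ k * r + 1) = 2 ^ i * 2 ^ k * r + 2 ^ i := by ring
      omega
  rw [e1, e2]

theorem rep_val {p : ℕ} [NeZero p] (u : ℤ) (l : ℕ) (hu : -1 ≤ u) (hl : u + l ≤ p - 1) (x : ZMod p) :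
    rep u x ≤ u + l ↔ u < (x.val : ℤ) ∧ (x.val : ℤ) ≤ u + l := by
  have hxp := ZMod.val_lt x
  constructor
  · intro h
    have h1 := rep_gt u x
    have h2 := rep_cast u x
    have h3 : rep u x = (x.val : ℤ) := by
      obtain ⟨n, hn⟩ := Int.eq_ofNat_of_zero_le (by omega : 0 ≤ rep u x)
      rw [hn] at h2 h ⊢
      have h4 : n < p := by omega
      rw [← h2]
      have : (((n : ℤ) : ZMod p)) = ((n : ℕ) : ZMod p) := by push_cast; rfl
      rw [this, ZMod.val_natCast, Nat.mod_eq_of_lt h4]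
    rw [← h3]
    exact ⟨h1, h⟩
  · rintro ⟨h1, h2⟩
    have h3 : (x.val : ℤ) = rep u x := by
      apply rep_unique u x _ h1 (by omega)
      push_cast
      exact ZMod.natCast_zmod_val x
    rw [← h3]
    exact h2

/-- the blocks of digits of the cofactor of a small prime factor -/
theorem digits (C δ : ℝ) (hC : 1 ≤ C) (hδ : 0 < δ) : ∃ ε : ℝ, 0 < ε ∧ ∃ m₀ : ℕ, ∀ m : ℕ, m₀ ≤ m →
    ∀ p : ℕ, p.Prime → p ∣ Nat.fermatNumber m → (p : ℝ) ≤ (2 : ℝ) ^ (C * m) →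
    ∀ i₀ L k w : ℕ, (2 : ℝ) ^ (δ * m) ≤ L → i₀ + L + k ≤ 2 ^ m → w < 2 ^ k →
    |(((Ico i₀ (i₀ + L)).filter fun i => Nat.fermatNumber m / p / 2 ^ i % 2 ^ k = w).card : ℝ) - L / 2 ^ k| ≤
      (2 : ℝ) ^ (-(ε * m)) * L := by
  classical
  obtain ⟨ε₁, hε₁, hε₁1, m₁, h⟩ := win C δ hC hδ
  set ε₂ := min ε₁ δ with hε₂
  have hε₂0 : 0 < ε₂ := lt_min hε₁ hδ
  obtain ⟨m₂, hm₂⟩ := exists_nat_gt (2 / ε₂)
  refine ⟨ε₂ / 2, by positivity, max m₁ m₂, ?_⟩
  intro m hm p hp hd hpC i₀ L k w hL hM hw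
  have : Fact p.Prime := ⟨hp⟩
  have hp0 : (0 : ℝ) < p := by exact_mod_cast hp.pos
  have hm1 : m₁ ≤ m := (le_max_left _ _).trans hm
  have hm2 : (m₂ : ℝ) ≤ m := by exact_mod_cast (le_max_right _ _).trans hm
  have hL0 : (0 : ℝ) < L := lt_of_lt_of_le (by positivity) hL
  have hL1 : 1 ≤ L := by exact_mod_cast hL0
  set N := Nat.fermatNumber m / p with hN
  have hpN : p * N = 2 ^ (2 ^ m) + 1 := Nat.mul_div_cancel' hd
  -- the interval
  have h2k : (0 : ℤ) < 2 ^ k := by positivity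
  set u : ℤ := ((w : ℤ) * p - 1) / 2 ^ k with hu
  set v : ℤ := (((w : ℤ) + 1) * p - 1) / 2 ^ k with hv
  have hpz : (1 : ℤ) ≤ p := by exact_mod_cast hp.pos
  have hwz : (0 : ℤ) ≤ w := Int.natCast_nonneg w
  have huv : u ≤ v := Int.ediv_le_ediv h2k (by nlinarith)
  have hu1 : -1 ≤ u := by
    rw [hu, Int.le_ediv_iff_mul_le h2k]
    nlinarith
  have hvp : v ≤ p - 1 := by
    rw [hv]
    have h1 : (((w : ℤ) + 1) * p - 1) < 2 ^ k * p := by
      have : (w : ℤ) + 1 ≤ 2 ^ k := by exact_mod_cast hw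
      nlinarith
    have h2 : (((w : ℤ) + 1) * p - 1) / 2 ^ k < p := by
      rw [Int.ediv_lt_iff_lt_mul h2k]
      linarith [mul_comm ((2 : ℤ) ^ k) p]
    omega
  obtain ⟨l, hl⟩ := Int.eq_ofNat_of_zero_le (by omega : 0 ≤ v - u)
  have hvl : v = u + l := by omega
  have hlp : l ≤ p := by
    have : (l : ℤ) ≤ p := by omega
    exact_mod_cast this
  have hlw : |(l : ℝ) - 1 / 2 ^ k * p| ≤ 1 := by
    -- u ≤ (w p - 1)/2^k < u + 1
    have a1 : u * 2 ^ k ≤ (w : ℤ) * p - 1 := Int.ediv_mul_le _ h2k.ne'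
    have a2 : (w : ℤ) * p - 1 < (u + 1) * 2 ^ k := Int.lt_ediv_add_one_mul_self _ h2k
    have b1 : v * 2 ^ k ≤ ((w : ℤ) + 1) * p - 1 := Int.ediv_mul_le _ h2k.ne'
    have b2 : ((w : ℤ) + 1) * p - 1 < (v + 1) * 2 ^ k := Int.lt_ediv_add_one_mul_self _ h2k
    have c1 : (l : ℤ) * 2 ^ k < p + 2 ^ k := by
      have : (l : ℤ) = v - u := hl.symm
      rw [this]; nlinarith
    have c2 : (p : ℤ) < l * 2 ^ k + 2 ^ k := by
      have : (l : ℤ) = v - u := hl.symm
      rw [this]; nlinarith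
    have c1' : (l : ℝ) * 2 ^ k < p + 2 ^ k := by exact_mod_cast c1
    have c2' : (p : ℝ) < l * 2 ^ k + 2 ^ k := by exact_mod_cast c2
    have h2kr : (0 : ℝ) < 2 ^ k := by positivity
    rw [abs_le]
    have e1 : 1 / 2 ^ k * (p : ℝ) = p / 2 ^ k := by ring
    rw [e1]
    constructor
    · rw [neg_le_sub_iff_le_add, div_le_iff₀ h2kr]; nlinarith
    · rw [sub_le_iff_le_add, ← sub_le_iff_le_add', le_div_iff₀ h2kr]; nlinarith
  have hkey := h m hm1 p hd hpC 1 one_ne_zero (2 ^ m - k - i₀ - L + 1) L hL (by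
    rw [pow_succ]; omega) u l hlp (1 / 2 ^ k) hlw
  -- reindexing
  have hA : ((Ico i₀ (i₀ + L)).filter fun i => N / 2 ^ i % 2 ^ k = w).card =
      ((range L).filter fun n => N / 2 ^ (i₀ + L - 1 - n) % 2 ^ k = w).card := by
    refine card_nbij' (fun i => i₀ + L - 1 - i) (fun n => i₀ + L - 1 - n) ?_ ?_ ?_ ?_
    · intro i hi
      rw [mem_coe, mem_filter, mem_Ico] at hi
      rw [mem_coe, mem_filter, mem_range]
      beta_reduce
      refine ⟨by omega, ?_⟩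
      rw [show i₀ + L - 1 - (i₀ + L - 1 - i) = i by omega]
      exact hi.2
    · intro n hn
      rw [mem_coe, mem_filter, mem_range] at hn
      rw [mem_coe, mem_filter, mem_Ico]
      beta_reduce
      exact ⟨by omega, hn.2⟩
    · intro i hi
      rw [mem_coe, mem_filter, mem_Ico] at hi
      show i₀ + L - 1 - (i₀ + L - 1 - i) = i
      omega
    · intro n hn
      rw [mem_coe, mem_filter, mem_range] at hn
      show i₀ + L - 1 - (i₀ + L - 1 - n) = n
      omega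
  have hcond : ∀ n ∈ range L, 1 ≤ i₀ + L - 1 - n →
      (N / 2 ^ (i₀ + L - 1 - n) % 2 ^ k = w ↔
        rep u ((1 : ZMod p) * 2 ^ (2 ^ m - k - i₀ - L + 1 + n)) ≤ u + l) := by
    intro n hn h1
    rw [mem_range] at hn
    rw [digit_iff hp.one_lt h1 (by omega : i₀ + L - 1 - n + k ≤ 2 ^ m) hpN]
    rw [show 2 ^ m - (i₀ + L - 1 - n + k) = 2 ^ m - k - i₀ - L + 1 + n by omega]
    set e := 2 ^ m - k - i₀ - L + 1 + n
    rw [rep_val u l hu1 (by omega), one_mul]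
    have hval : ((2 : ZMod p) ^ e).val = 2 ^ e % p := by
      have : (2 : ZMod p) ^ e = ((2 ^ e : ℕ) : ZMod p) := by push_cast; rfl
      rw [this, ZMod.val_natCast]
    rw [hval, ← hvl]
    set ρ := 2 ^ e % p
    have d1 : u < (ρ : ℤ) ↔ w * p ≤ 2 ^ k * ρ := by
      rw [hu, Int.ediv_lt_iff_lt_mul h2k]
      constructor
      · intro h3
        have : (w : ℤ) * p ≤ 2 ^ k * ρ := by
          rw [mul_comm ((2 : ℤ) ^ k)]; omega
        exact_mod_cast this
      · intro h3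
        have : (w : ℤ) * p ≤ 2 ^ k * ρ := by exact_mod_cast h3
        rw [mul_comm ((2 : ℤ) ^ k)] at this
        omega
    have d2 : (ρ : ℤ) ≤ v ↔ 2 ^ k * ρ < (w + 1) * p := by
      rw [hv, Int.le_ediv_iff_mul_le h2k]
      constructor
      · intro h3
        have : (2 : ℤ) ^ k * ρ < (w + 1) * p := by
          rw [mul_comm ((2 : ℤ) ^ k)]; omega
        exact_mod_cast this
      · intro h3
        have : (2 : ℤ) ^ k * ρ < (w + 1) * p := by exact_mod_cast h3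
        rw [mul_comm ((2 : ℤ) ^ k)] at this
        omega
    rw [d1, d2]
  have hdiff : |(((range L).filter fun n => N / 2 ^ (i₀ + L - 1 - n) % 2 ^ k = w).card : ℝ) -
      (((range L).filter fun n => rep u ((1 : ZMod p) * 2 ^ (2 ^ m - k - i₀ - L + 1 + n)) ≤ u + l).card : ℝ)| ≤ 1 := by
    have key : ∀ (P Q : ℕ → Prop) [DecidablePred P] [DecidablePred Q] (z : ℕ),
        (∀ n ∈ range L, n ≠ z → (P n → Q n)) → ((range L).filter P).card ≤ ((range L).filter Q).card + 1 := by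
      intro P Q _ _ z hPQ
      calc ((range L).filter P).card ≤ (insert z ((range L).filter Q)).card := by
            apply card_le_card
            intro n hn
            rw [mem_filter] at hn
            rw [mem_insert, mem_filter]
            by_cases hz : n = z
            · exact Or.inl hz
            · exact Or.inr ⟨hn.1, hPQ n hn.1 hz hn.2⟩
        _ ≤ _ := card_insert_le _ _
    have k1 := key (fun n => N / 2 ^ (i₀ + L - 1 - n) % 2 ^ k = w)
      (fun n => rep u ((1 : ZMod p) * 2 ^ (2 ^ m - k - i₀ - L + 1 + n)) ≤ u + l) (i₀ + L - 1)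
      (fun n hn hz => (hcond n hn (by rw [mem_range] at hn; omega)).1)
    have k2 := key (fun n => rep u ((1 : ZMod p) * 2 ^ (2 ^ m - k - i₀ - L + 1 + n)) ≤ u + l)
      (fun n => N / 2 ^ (i₀ + L - 1 - n) % 2 ^ k = w) (i₀ + L - 1)
      (fun n hn hz => (hcond n hn (by rw [mem_range] at hn; omega)).2)
    rw [abs_le]
    have k1' : (((range L).filter fun n => N / 2 ^ (i₀ + L - 1 - n) % 2 ^ k = w).card : ℝ) ≤
      (((range L).filter fun n => rep u ((1 : ZMod p) * 2 ^ (2 ^ m - k - i₀ - L + 1 + n)) ≤ u + l).card : ℝ) + 1 := by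
      exact_mod_cast k1
    have k2' : (((range L).filter fun n => rep u ((1 : ZMod p) * 2 ^ (2 ^ m - k - i₀ - L + 1 + n)) ≤ u + l).card : ℝ) ≤
      (((range L).filter fun n => N / 2 ^ (i₀ + L - 1 - n) % 2 ^ k = w).card : ℝ) + 1 := by
      exact_mod_cast k2
    constructor <;> linarith
  rw [hA]
  have hfin : 1 + (2 : ℝ) ^ (-(ε₁ * m)) * L ≤ (2 : ℝ) ^ (-(ε₂ / 2 * m)) * L := by
    have f1 : (1 : ℝ) ≤ (2 : ℝ) ^ (-(ε₂ * m)) * L := by
      calc (1 : ℝ) = (2 : ℝ) ^ (-(δ * m)) * (2 : ℝ) ^ (δ * m) := by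
            rw [← Real.rpow_add (by norm_num)]; simp
        _ ≤ (2 : ℝ) ^ (-(ε₂ * m)) * L := by
            gcongr
            · norm_num
            · exact min_le_right _ _
    have f2 : (2 : ℝ) ^ (-(ε₁ * m)) ≤ (2 : ℝ) ^ (-(ε₂ * m)) := by
      apply Real.rpow_le_rpow_of_exponent_le (by norm_num)
      have := min_le_left ε₁ δ
      have hmn : (0 : ℝ) ≤ m := Nat.cast_nonneg m
      nlinarith
    have f3 : 2 * (2 : ℝ) ^ (-(ε₂ * m)) ≤ (2 : ℝ) ^ (-(ε₂ / 2 * m)) := by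
      have g1 : (2 : ℝ) ^ (-(ε₂ / 2 * m)) = (2 : ℝ) ^ (ε₂ / 2 * m) * (2 : ℝ) ^ (-(ε₂ * m)) := by
        rw [← Real.rpow_add (by norm_num)]; congr 1; ring
      rw [g1]
      gcongr
      calc (2 : ℝ) = (2 : ℝ) ^ (1 : ℝ) := (Real.rpow_one 2).symm
        _ ≤ _ := by
          apply Real.rpow_le_rpow_of_exponent_le (by norm_num)
          rw [div_lt_iff₀ hε₂0] at hm₂
          nlinarith
    calc 1 + (2 : ℝ) ^ (-(ε₁ * m)) * L ≤ (2 : ℝ) ^ (-(ε₂ * m)) * L + (2 : ℝ) ^ (-(ε₂ * m)) * L :=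
          add_le_add f1 (mul_le_mul_of_nonneg_right f2 hL0.le)
      _ = (2 * (2 : ℝ) ^ (-(ε₂ * m))) * L := by ring
      _ ≤ _ := mul_le_mul_of_nonneg_right f3 hL0.le
  calc |(((range L).filter fun n => N / 2 ^ (i₀ + L - 1 - n) % 2 ^ k = w).card : ℝ) - L / 2 ^ k|
      ≤ |(((range L).filter fun n => N / 2 ^ (i₀ + L - 1 - n) % 2 ^ k = w).card : ℝ) -
      (((range L).filter fun n => rep u ((1 : ZMod p) * 2 ^ (2 ^ m - k - i₀ - L + 1 + n)) ≤ u + l).card : ℝ)| +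
        |(((range L).filter fun n => rep u ((1 : ZMod p) * 2 ^ (2 ^ m - k - i₀ - L + 1 + n)) ≤ u + l).card : ℝ) -
          L / 2 ^ k| := abs_sub_le _ _ _
    _ ≤ 1 + (2 : ℝ) ^ (-(ε₁ * m)) * L := by
        refine add_le_add hdiff ?_
        rw [show (L : ℝ) / 2 ^ k = L * (1 / 2 ^ k) by ring]
        exact hkey
    _ ≤ _ := hfin

end Pool.Agent.Run7.h90.BGK
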