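import Mathlib
import Pool.Agent.Run7.h90.BGK.FerB

set_option autoImplicit false

/-! # Sparse multiples of the cofactors of the Fermat numbers -/

open Finset
open Pool.Agent.N825.FC (rep rep_gt rep_le rep_cast rep_unique)

namespace Pool.Agent.Run7.h90.BGK

/-- powers of two modulo `2 ^ M + 1` -/
theorem pow_red (M n : ℕ) : ((2 : ℤ) ^ M + 1) ∣ 2 ^ n - (-1) ^ (n / M) * 2 ^ (n % M) := by
  have h1 : (2 : ℤ) ^ n = ((2 : ℤ) ^ M) ^ (n / M) * 2 ^ (n % M) := by
    rw [← pow_mul, ← pow_add, Nat.div_add_mod]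
  rw [h1, ← sub_mul]
  apply Dvd.dvd.mul_right
  have h2 := sub_dvd_pow_sub_pow ((2 : ℤ) ^ M) (-1) (n / M)
  rwa [sub_neg_eq_add] at h2

theorem sgn_pow (k : ℕ) : ((-1 : ℤ)) ^ k = 1 ∨ ((-1 : ℤ)) ^ k = -1 := neg_one_pow_eq_or ℤ k

/-- reduction to exponents which are distinct modulo `M` -/
theorem reduce {ι : Type} [DecidableEq ι] (M : ℕ) (F c : ℤ) (hF : F = 2 ^ M + 1) (hc : c ∣ F) (B : ℝ)
    (hB : ∀ (S : Finset ι) (e : ι → ℕ) (σ : ι → ℤ), (∀ l ∈ S, σ l = 1 ∨ σ l = -1) →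
      Set.InjOn (fun l => e l % M) (S : Set ι) → c ∣ ∑ l ∈ S, σ l * 2 ^ (e l) →
      ¬ F ∣ ∑ l ∈ S, σ l * 2 ^ (e l) → B ≤ S.card) :
    ∀ (S : Finset ι) (e : ι → ℕ) (σ : ι → ℤ), (∀ l ∈ S, σ l = 1 ∨ σ l = -1) →
      c ∣ ∑ l ∈ S, σ l * 2 ^ (e l) → ¬ F ∣ ∑ l ∈ S, σ l * 2 ^ (e l) → B ≤ S.card := by
  intro S
  induction S using Finset.strongInduction with
  | H S ih =>
    intro e σ hσ hcN hFN
    by_cases hinj : Set.InjOn (fun l => e l % M) (S : Set ι)
    · exact hB S e σ hσ hinj hcN hFN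
    obtain ⟨l, hl, l', hl', heq, hne⟩ : ∃ l ∈ S, ∃ l' ∈ S, e l % M = e l' % M ∧ l ≠ l' := by
      by_contra hcon
      apply hinj
      intro l hl l' hl' h
      by_contra hne
      exact hcon ⟨l, hl, l', hl', h, hne⟩
    have h1 := pow_red M (e l)
    have h2 := pow_red M (e l')
    rw [← hF] at h1 h2
    rw [heq] at h1
    have hl'2 : l' ∈ S.erase l := mem_erase.2 ⟨hne.symm, hl'⟩
    have hsum : ∑ l ∈ S, σ l * 2 ^ (e l) = σ l * 2 ^ (e l) + (σ l' * 2 ^ (e l') +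
        ∑ i ∈ (S.erase l).erase l', σ i * 2 ^ (e i)) := by
      rw [← add_sum_erase S _ hl, ← add_sum_erase (S.erase l) _ hl'2]
    set T := ∑ i ∈ (S.erase l).erase l', σ i * 2 ^ (e i) with hT
    have hsub2 : (S.erase l).erase l' ⊂ S := (erase_subset _ _).trans_ssubset (erase_ssubset hl)
    have hsub1 : S.erase l ⊂ S := erase_ssubset hl
    -- the sign
    have hkey : F ∣ (σ l * 2 ^ (e l)) - (σ l * (-1) ^ (e l / M) * (-1) ^ (e l' / M)) * 2 ^ (e l') := by
      have h3 : (σ l * 2 ^ (e l)) - (σ l * (-1) ^ (e l / M) * (-1) ^ (e l' / M)) * 2 ^ (e l') =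
          σ l * (2 ^ (e l) - (-1) ^ (e l / M) * 2 ^ (e l' % M)) -
          σ l * (-1) ^ (e l / M) * (-1) ^ (e l' / M) * (2 ^ (e l') - (-1) ^ (e l' / M) * 2 ^ (e l' % M)) := by
        have h4 : ((-1 : ℤ)) ^ (e l' / M) * (-1) ^ (e l' / M) = 1 := by
          rcases sgn_pow (e l' / M) with h | h <;> rw [h] <;> norm_num
        linear_combination (-(σ l * (-1) ^ (e l / M) * 2 ^ (e l' % M))) * h4
      rw [h3]
      exact dvd_sub (Dvd.dvd.mul_left h1 _) (Dvd.dvd.mul_left h2 _)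
    have hν : σ l * (-1) ^ (e l / M) * (-1) ^ (e l' / M) = 1 ∨ σ l * (-1) ^ (e l / M) * (-1) ^ (e l' / M) = -1 := by
      rcases hσ l hl with h3 | h3 <;> rcases sgn_pow (e l / M) with h4 | h4 <;>
        rcases sgn_pow (e l' / M) with h5 | h5 <;> rw [h3, h4, h5] <;> norm_num
    by_cases hcase : σ l * (-1) ^ (e l / M) * (-1) ^ (e l' / M) = σ l'
    · -- both equal: double
      rw [hcase] at hkey
      have hres := ih (S.erase l) hsub1 (Function.update e l' (e l' + 1)) σ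
        (fun i hi => hσ i (mem_of_mem_erase hi))
      have hsum' : ∑ i ∈ S.erase l, σ i * 2 ^ (Function.update e l' (e l' + 1) i) =
          σ l' * 2 ^ (e l' + 1) + T := by
        rw [← add_sum_erase (S.erase l) _ hl'2, Function.update_self]
        congr 1
        refine sum_congr rfl fun i hi => ?_
        rw [Function.update_of_ne (ne_of_mem_erase hi)]
      rw [hsum'] at hres
      rw [hsum] at hcN hFN
      have hdiff : (σ l * 2 ^ (e l) + (σ l' * 2 ^ (e l') + T)) - (σ l' * 2 ^ (e l' + 1) + T) =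
          (σ l * 2 ^ (e l)) - σ l' * 2 ^ (e l') := by ring
      have hd1 : F ∣ (σ l * 2 ^ (e l) + (σ l' * 2 ^ (e l') + T)) - (σ l' * 2 ^ (e l' + 1) + T) := by
        rw [hdiff]; exact hkey
      have := hres ((dvd_iff_dvd_of_dvd_sub (hc.trans hd1)).1 hcN)
        (fun h => hFN ((dvd_iff_dvd_of_dvd_sub hd1).2 h))
      refine this.trans ?_
      exact_mod_cast card_le_card hsub1.subset
    · -- cancel
      have hcase' : σ l * (-1) ^ (e l / M) * (-1) ^ (e l' / M) = -σ l' := by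
        rcases hσ l' hl' with h3 | h3 <;> rcases hν with h4 | h4 <;> rw [h3] at hcase ⊢ <;> rw [h4] at hcase ⊢
        · exact absurd rfl hcase
        · norm_num
        · exact absurd rfl hcase
      rw [hcase'] at hkey
      have hres := ih ((S.erase l).erase l') hsub2 e σ
        (fun i hi => hσ i (mem_of_mem_erase (mem_of_mem_erase hi)))
      rw [← hT] at hres
      rw [hsum] at hcN hFN
      have hdiff : (σ l * 2 ^ (e l) + (σ l' * 2 ^ (e l') + T)) - T =
          (σ l * 2 ^ (e l)) - (-σ l') * 2 ^ (e l') := by ring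
      have hd1 : F ∣ (σ l * 2 ^ (e l) + (σ l' * 2 ^ (e l') + T)) - T := by
        rw [hdiff]; exact hkey
      have := hres ((dvd_iff_dvd_of_dvd_sub (hc.trans hd1)).1 hcN)
        (fun h => hFN ((dvd_iff_dvd_of_dvd_sub hd1).2 h))
      refine this.trans ?_
      exact_mod_cast card_le_card hsub2.subset

theorem small {ι : Type} [DecidableEq ι] (M : ℕ) (hM : 2 ≤ M) (F c d : ℤ) (hF : F = 2 ^ M + 1) (hd : F = d * c)
    (hc : 0 < c) (S : Finset ι) (e : ι → ℕ) (σ : ι → ℤ) (hσ : ∀ l ∈ S, σ l = 1 ∨ σ l = -1)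
    (hinj : Set.InjOn (fun l => e l % M) (S : Set ι)) (a : ℤ) (ha : ∑ l ∈ S, σ l * 2 ^ (e l) = a * c)
    (t : ℕ) (ht : ∀ l ∈ S, (e l + t) % M < M - 2) :
    ∃ R : ℤ, 4 * |R| < d ∧ d ∣ 2 ^ t * a - R := by
  set Y : ℤ := ∑ l ∈ S, σ l * (-1) ^ ((e l + t) / M) * 2 ^ ((e l + t) % M) with hY
  have h1 : F ∣ 2 ^ t * (a * c) - Y := by
    rw [← ha, hY, mul_sum, ← sum_sub_distrib]
    apply dvd_sum
    intro l _
    have h2 := pow_red M (e l + t)
    rw [← hF] at h2
    have h3 : 2 ^ t * (σ l * 2 ^ (e l)) - σ l * (-1) ^ ((e l + t) / M) * 2 ^ ((e l + t) % M) =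
        σ l * (2 ^ (e l + t) - (-1) ^ ((e l + t) / M) * 2 ^ ((e l + t) % M)) := by
      rw [pow_add 2 (e l) t]; ring
    rw [h3]
    exact Dvd.dvd.mul_left h2 _
  obtain ⟨z, hz⟩ := h1
  have hYabs : |Y| < 2 ^ (M - 2) := by
    have h2 : |Y| ≤ ∑ l ∈ S, (2 : ℤ) ^ ((e l + t) % M) := by
      rw [hY]
      refine (abs_sum_le_sum_abs _ _).trans (sum_le_sum fun l hl => ?_)
      rw [abs_mul, abs_mul]
      have e1 : |σ l| = 1 := by rcases hσ l hl with h | h <;> rw [h] <;> norm_num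
      rw [e1, abs_pow, abs_neg, abs_one, one_pow, one_mul, one_mul, abs_pow]
      norm_num
    have hinj2 : Set.InjOn (fun l => (e l + t) % M) (S : Set ι) := by
      intro l hl l' hl' h
      apply hinj hl hl'
      exact Nat.ModEq.add_right_cancel' t h
    have h3 : ∑ l ∈ S, (2 : ℤ) ^ ((e l + t) % M) ≤ ∑ r ∈ range (M - 2), (2 : ℤ) ^ r := by
      rw [← sum_image (f := fun r => (2 : ℤ) ^ r) hinj2]
      apply sum_le_sum_of_subset_of_nonneg
      · intro r hr
        obtain ⟨l, hl, rfl⟩ := mem_image.1 hr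
        exact mem_range.2 (ht l hl)
      · intro r _ _
        positivity
    have h4 : ∑ r ∈ range (M - 2), (2 : ℤ) ^ r = 2 ^ (M - 2) - 1 := by
      have := geom_sum_mul (2 : ℤ) (M - 2)
      linarith
    linarith
  refine ⟨2 ^ t * a - d * z, ?_, ⟨z, by ring⟩⟩
  have h5 : c * (2 ^ t * a - d * z) = Y := by
    rw [hd] at hz
    linear_combination hz
  have h6 : c * |2 ^ t * a - d * z| = |Y| := by rw [← h5, abs_mul, abs_of_pos hc]
  have h7 : (2 : ℤ) ^ M = 4 * 2 ^ (M - 2) := by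
    have : M = (M - 2) + 2 := by omega
    conv_lhs => rw [this]
    rw [pow_add]; ring
  have h8 : c * (4 * |2 ^ t * a - d * z|) < c * d := by
    have : c * (4 * |2 ^ t * a - d * z|) = 4 * |Y| := by rw [← h6]; ring
    rw [this, mul_comm c d, ← hd, hF, h7]
    linarith
  exact lt_of_mul_lt_mul_left h8 hc.le

/-- the exceptional rotations -/
theorem bad {ι : Type} [DecidableEq ι] (M : ℕ) (hM : 2 ≤ M) (S : Finset ι) (e : ι → ℕ) :
    ((range M).filter fun t => ∃ l ∈ S, ¬ (e l + t) % M < M - 2).card ≤ 2 * S.card := by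
  have h1 : ((range M).filter fun t => ∃ l ∈ S, ¬ (e l + t) % M < M - 2) ⊆
      S.biUnion fun l => (range M).filter fun t => ¬ (e l + t) % M < M - 2 := by
    intro t ht
    rw [mem_filter] at ht
    obtain ⟨ht1, l, hl, h⟩ := ht
    exact mem_biUnion.2 ⟨l, hl, mem_filter.2 ⟨ht1, h⟩⟩
  refine (card_le_card h1).trans (card_biUnion_le.trans ?_)
  have h2 : ∀ l ∈ S, ((range M).filter fun t => ¬ (e l + t) % M < M - 2).card ≤ 2 := by
    intro l _
    calc ((range M).filter fun t => ¬ (e l + t) % M < M - 2).card ≤ (Ico (M - 2) M).card := by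
          refine card_le_card_of_injOn (fun t => (e l + t) % M) ?_ ?_
          · intro t ht
            rw [mem_coe, mem_filter] at ht
            rw [mem_coe, mem_Ico]
            exact ⟨not_lt.1 ht.2, Nat.mod_lt _ (by omega)⟩
          · intro t ht t' ht' h
            rw [mem_coe, mem_filter, mem_range] at ht ht'
            have h3 : t ≡ t' [MOD M] := Nat.ModEq.add_left_cancel' (e l) h
            exact Nat.ModEq.eq_of_lt_of_lt h3 ht.1 ht'.1
      _ = 2 := by rw [Nat.card_Ico]; omega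
  calc ∑ l ∈ S, ((range M).filter fun t => ¬ (e l + t) % M < M - 2).card ≤ ∑ _l ∈ S, 2 := sum_le_sum h2
    _ = 2 * S.card := by rw [sum_const, smul_eq_mul, mul_comm]

/-- **No sparse multiples, small prime factors.** -/
theorem sparse_prime (C : ℝ) (hC : 1 ≤ C) : ∃ ε : ℝ, 0 < ε ∧ ∃ m₀ : ℕ, ∀ m : ℕ, m₀ ≤ m →
    ∀ p : ℕ, p.Prime → p ∣ Nat.fermatNumber m → (p : ℝ) ≤ (2 : ℝ) ^ (C * m) →
    ∀ {ι : Type} [DecidableEq ι] (S : Finset ι) (e : ι → ℕ) (σ : ι → ℤ), (∀ l ∈ S, σ l = 1 ∨ σ l = -1) →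
      ((Nat.fermatNumber m / p : ℕ) : ℤ) ∣ ∑ l ∈ S, σ l * 2 ^ (e l) →
      ¬ (Nat.fermatNumber m : ℤ) ∣ ∑ l ∈ S, σ l * 2 ^ (e l) →
      (1 / 4 - (2 : ℝ) ^ (-(ε * m))) * 2 ^ m ≤ S.card := by
  classical
  obtain ⟨ε, hε, -, m₀, h⟩ := win C 1 hC one_pos
  refine ⟨ε, hε, max m₀ 1, ?_⟩
  intro m hm p hp hd hpC ι _ S₀ e₀ σ₀ hσ₀ hc₀ hF₀
  have : Fact p.Prime := ⟨hp⟩
  have hp0 : (0 : ℝ) < p := by exact_mod_cast hp.pos
  have hm1 : 1 ≤ m := (le_max_right _ _).trans hm
  have hM : 2 ≤ 2 ^ m := by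
    calc 2 = 2 ^ 1 := rfl
      _ ≤ 2 ^ m := Nat.pow_le_pow_right (by norm_num) hm1
  have hFz : ((Nat.fermatNumber m : ℕ) : ℤ) = 2 ^ (2 ^ m) + 1 := by
    unfold Nat.fermatNumber; push_cast; rfl
  have hcF : ((Nat.fermatNumber m : ℕ) : ℤ) = (p : ℤ) * ((Nat.fermatNumber m / p : ℕ) : ℤ) := by
    rw [← Nat.cast_mul, Nat.mul_div_cancel' hd]
  have hcpos : (0 : ℤ) < ((Nat.fermatNumber m / p : ℕ) : ℤ) := by
    have h1 : 0 < Nat.fermatNumber m := by have := Nat.three_le_fermatNumber m; omega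
    have := Nat.div_pos (Nat.le_of_dvd h1 hd) hp.pos
    exact_mod_cast this
  refine reduce (2 ^ m) _ _ hFz ⟨p, by rw [hcF]; ring⟩ _ ?_ S₀ e₀ σ₀ hσ₀ hc₀ hF₀
  intro S e σ hσ hinj hc hF
  obtain ⟨a, ha⟩ := hc
  rw [mul_comm] at ha
  have hap : ((a : ℤ) : ZMod p) ≠ 0 := by
    intro h0
    rw [ZMod.intCast_zmod_eq_zero_iff_dvd] at h0
    apply hF
    rw [ha, hcF]
    exact mul_dvd_mul_right h0 _
  have hodd := odd_of_dvd hd
  obtain ⟨q, hq⟩ := hodd
  set h₁ := (p - 1) / 4 with hh₁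
  have e1 : 4 * h₁ + 1 ≤ p := by omega
  have e2 : p ≤ 4 * h₁ + 3 := by omega
  have hw : |((2 * h₁ + 1 : ℕ) : ℝ) - 1 / 2 * p| ≤ 1 := by
    have e1' : (4 : ℝ) * h₁ + 1 ≤ p := by exact_mod_cast e1
    have e2' : (p : ℝ) ≤ 4 * h₁ + 3 := by exact_mod_cast e2
    push_cast
    rw [abs_le]
    constructor <;> linarith
  have hkey := h m ((le_max_left _ _).trans hm) p hd hpC (a : ZMod p) hap 0 (2 ^ m) (by
    rw [one_mul, Real.rpow_natCast]; push_cast; exact le_rfl) (Nat.pow_le_pow_right (by norm_num) (Nat.le_succ m))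
    (-(h₁ : ℤ) - 1) (2 * h₁ + 1) (by omega) (1 / 2) hw
  -- the good rotations
  have hgood : (range (2 ^ m)).filter (fun t => ¬ ∃ l ∈ S, ¬ (e l + t) % (2 ^ m) < 2 ^ m - 2) ⊆
      (range (2 ^ m)).filter fun n => rep (-(h₁ : ℤ) - 1) ((a : ZMod p) * 2 ^ (0 + n)) ≤
        (-(h₁ : ℤ) - 1) + ((2 * h₁ + 1 : ℕ) : ℤ) := by
    intro t ht
    rw [mem_filter] at ht ⊢
    refine ⟨ht.1, ?_⟩
    have ht2 : ∀ l ∈ S, (e l + t) % (2 ^ m) < 2 ^ m - 2 := by
      intro l hl
      by_contra hcon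
      exact ht.2 ⟨l, hl, hcon⟩
    obtain ⟨R, hR1, hR2⟩ := small (2 ^ m) hM _ _ (p : ℤ) hFz hcF hcpos S e σ hσ hinj a ha t ht2
    have hRh : |R| ≤ h₁ := by omega
    rw [abs_le] at hRh
    have h3 : R = rep (-(h₁ : ℤ) - 1) ((a : ZMod p) * 2 ^ (0 + t)) := by
      apply rep_unique _ _ _ (by omega) (by omega)
      have h4 : (((2 : ℤ) ^ t * a - R : ℤ) : ZMod p) = 0 := by
        rw [ZMod.intCast_zmod_eq_zero_iff_dvd]; exact hR2
      push_cast at h4
      rw [zero_add]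
      linear_combination -h4
    rw [← h3]
    push_cast
    omega
  have hcount : (2 : ℝ) ^ m - 2 * S.card ≤ ((((range (2 ^ m)).filter fun n => rep (-(h₁ : ℤ) - 1)
      ((a : ZMod p) * 2 ^ (0 + n)) ≤ (-(h₁ : ℤ) - 1) + ((2 * h₁ + 1 : ℕ) : ℤ)).card : ℕ) : ℝ) := by
    have g1 := card_le_card hgood
    have g2 := card_filter_add_card_filter_not (s := range (2 ^ m))
      (fun t => ∃ l ∈ S, ¬ (e l + t) % (2 ^ m) < 2 ^ m - 2)
    rw [card_range] at g2
    have g3 := bad (2 ^ m) hM S e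
    have g4 : 2 ^ m ≤ 2 * S.card + (((range (2 ^ m)).filter fun n => rep (-(h₁ : ℤ) - 1)
      ((a : ZMod p) * 2 ^ (0 + n)) ≤ (-(h₁ : ℤ) - 1) + ((2 * h₁ + 1 : ℕ) : ℤ)).card) := by omega
    have g5 : ((2 : ℝ) ^ m) ≤ 2 * S.card + ((((range (2 ^ m)).filter fun n => rep (-(h₁ : ℤ) - 1)
      ((a : ZMod p) * 2 ^ (0 + n)) ≤ (-(h₁ : ℤ) - 1) + ((2 * h₁ + 1 : ℕ) : ℤ)).card : ℕ) : ℝ) := by
      exact_mod_cast g4
    linarith
  have h9 := (abs_le.1 hkey).2
  push_cast at h9 hcount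
  have hX : (0 : ℝ) ≤ (2 : ℝ) ^ (-(ε * m)) * 2 ^ m := by positivity
  have hG : (1 / 4 - (2 : ℝ) ^ (-(ε * m))) * 2 ^ m = 2 ^ m / 4 - (2 : ℝ) ^ (-(ε * m)) * 2 ^ m := by ring
  rw [hG]
  linarith

/-- **No sparse multiples, arbitrary divisors.** -/
theorem sparse_any (m d n : ℕ) (hd : d ∣ Nat.fermatNumber m) (hdn : d ≤ 2 ^ (n + 2))
    {ι : Type} [DecidableEq ι] (S : Finset ι) (e : ι → ℕ) (σ : ι → ℤ) (hσ : ∀ l ∈ S, σ l = 1 ∨ σ l = -1)
    (hcS : ((Nat.fermatNumber m / d : ℕ) : ℤ) ∣ ∑ l ∈ S, σ l * 2 ^ (e l))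
    (hFS : ¬ (Nat.fermatNumber m : ℤ) ∣ ∑ l ∈ S, σ l * 2 ^ (e l)) :
    2 ^ m < (2 * S.card + 1) * (n + 1) := by
  classical
  rcases Nat.eq_zero_or_pos m with rfl | hmpos
  · rcases S.eq_empty_or_nonempty with rfl | hS
    · exfalso; apply hFS; simp
    · have := hS.card_pos
      rw [pow_zero]
      nlinarith
  have hM : 2 ≤ 2 ^ m := by
    calc 2 = 2 ^ 1 := rfl
      _ ≤ 2 ^ m := Nat.pow_le_pow_right (by norm_num) hmpos
  have hFpos : 0 < Nat.fermatNumber m := by have := Nat.three_le_fermatNumber m; omega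
  have hdpos : 0 < d := Nat.pos_of_dvd_of_pos hd hFpos
  have hFz : ((Nat.fermatNumber m : ℕ) : ℤ) = 2 ^ (2 ^ m) + 1 := by
    unfold Nat.fermatNumber; push_cast; rfl
  have hcF : ((Nat.fermatNumber m : ℕ) : ℤ) = (d : ℤ) * ((Nat.fermatNumber m / d : ℕ) : ℤ) := by
    rw [← Nat.cast_mul, Nat.mul_div_cancel' hd]
  have hcpos : (0 : ℤ) < ((Nat.fermatNumber m / d : ℕ) : ℤ) := by
    have := Nat.div_pos (Nat.le_of_dvd hFpos hd) hdpos
    exact_mod_cast this
  have hdodd : Odd d := Odd.of_dvd_nat (Nat.odd_fermatNumber m) hd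
  have main : ((((2 : ℝ) ^ m / (n + 1)) - 1) / 2 + 1 / (2 * (n + 1))) ≤ S.card := by
    refine reduce (2 ^ m) _ _ hFz ⟨d, by rw [hcF]; ring⟩ _ ?_ S e σ hσ hcS hFS
    intro S e σ hσ hinj hc hF
    obtain ⟨a, ha⟩ := hc
    rw [mul_comm] at ha
    have had : ¬ (d : ℤ) ∣ a := by
      intro h0
      apply hF
      rw [ha, hcF]
      exact mul_dvd_mul_right h0 _
    set bd := (range (2 ^ m)).filter fun t => ∃ l ∈ S, ¬ (e l + t) % (2 ^ m) < 2 ^ m - 2 with hbd
    have hbdc : bd.card ≤ 2 * S.card := bad (2 ^ m) hM S e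
    -- every window of length n + 1 contains a bad rotation
    have hwin : ∀ t : ℕ, t + (n + 1) ≤ 2 ^ m → ∃ t' ∈ bd, t ≤ t' ∧ t' < t + (n + 1) := by
      intro t ht
      by_contra hcon
      have hg : ∀ i ≤ n, ∀ l ∈ S, (e l + (t + i)) % (2 ^ m) < 2 ^ m - 2 := by
        intro i hi l hl
        by_contra hc2
        exact hcon ⟨t + i, mem_filter.2 ⟨mem_range.2 (by omega), l, hl, hc2⟩, by omega, by omega⟩
      have hR : ∀ i ≤ n, ∃ R : ℤ, 4 * |R| < d ∧ (d : ℤ) ∣ 2 ^ (t + i) * a - R := fun i hi =>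
        small (2 ^ m) hM _ _ (d : ℤ) hFz hcF hcpos S e σ hσ hinj a ha (t + i) (hg i hi)
      -- growth
      have hgrow : ∀ i ≤ n, ∃ R : ℤ, 4 * |R| < d ∧ (d : ℤ) ∣ 2 ^ (t + i) * a - R ∧ 2 ^ i ≤ |R| := by
        intro i
        induction i with
        | zero =>
          intro _
          obtain ⟨R, h1, h2⟩ := hR 0 (Nat.zero_le _)
          refine ⟨R, h1, h2, ?_⟩
          rw [pow_zero]
          rcases eq_or_ne R 0 with h0 | h0
          · exfalso
            rw [h0, sub_zero] at h2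
            have hcop : IsCoprime (d : ℤ) (2 ^ (t + 0)) := by
              apply IsCoprime.pow_right
              rw [show (2 : ℤ) = ((2 : ℕ) : ℤ) from rfl, Nat.isCoprime_iff_coprime]
              exact hdodd.coprime_two_right
            exact had (hcop.dvd_of_dvd_mul_left h2)
          · exact Int.one_le_abs h0
        | succ i ih =>
          intro hi
          obtain ⟨R, h1, h2, h3⟩ := ih (by omega)
          obtain ⟨R', h4, h5⟩ := hR (i + 1) hi
          have h6 : (d : ℤ) ∣ 2 * R - R' := by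
            have h7 : 2 * R - R' = (2 ^ (t + (i + 1)) * a - R') - 2 * (2 ^ (t + i) * a - R) := by
              rw [show t + (i + 1) = (t + i) + 1 by ring, pow_succ]; ring
            rw [h7]
            exact dvd_sub h5 (Dvd.dvd.mul_left h2 2)
          have h8 : 2 * R - R' = 0 := by
            apply Int.eq_zero_of_abs_lt_dvd h6
            have h9 : |2 * R - R'| ≤ 2 * |R| + |R'| := by
              refine (abs_sub _ _).trans ?_
              rw [abs_mul]; norm_num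
            omega
          have h10 : R' = 2 * R := by omega
          refine ⟨R', h4, h5, ?_⟩
          rw [h10, abs_mul, pow_succ]
          norm_num
          linarith
      obtain ⟨R, h1, -, h3⟩ := hgrow n le_rfl
      have h4 : (d : ℤ) ≤ 4 * 2 ^ n := by
        have : (d : ℤ) ≤ 2 ^ (n + 2) := by exact_mod_cast hdn
        rw [pow_add] at this
        linarith
      linarith
    -- disjoint windows
    have hcard : 2 ^ m / (n + 1) ≤ bd.card := by
      choose! f hf using hwin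
      calc 2 ^ m / (n + 1) = (range (2 ^ m / (n + 1))).card := (card_range _).symm
        _ ≤ bd.card := by
          refine card_le_card_of_injOn (fun j => f (j * (n + 1))) ?_ ?_
          · intro j hj
            rw [mem_coe, mem_range] at hj
            have hle : j * (n + 1) + (n + 1) ≤ 2 ^ m := by
              have := Nat.mul_le_mul_right (n + 1) (Nat.succ_le_of_lt hj)
              have h2 := Nat.div_mul_le_self (2 ^ m) (n + 1)
              calc j * (n + 1) + (n + 1) = (j + 1) * (n + 1) := by ring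
                _ ≤ _ := this
                _ ≤ _ := h2
            exact (hf _ hle).1
          · intro j hj j' hj' hjj
            rw [mem_coe, mem_range] at hj hj'
            have hle : ∀ i, i < 2 ^ m / (n + 1) → i * (n + 1) + (n + 1) ≤ 2 ^ m := by
              intro i hi
              have := Nat.mul_le_mul_right (n + 1) (Nat.succ_le_of_lt hi)
              have h2 := Nat.div_mul_le_self (2 ^ m) (n + 1)
              calc i * (n + 1) + (n + 1) = (i + 1) * (n + 1) := by ring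
                _ ≤ _ := this
                _ ≤ _ := h2
            obtain ⟨-, h1, h2⟩ := hf _ (hle j hj)
            obtain ⟨-, h3, h4⟩ := hf _ (hle j' hj')
            simp only at hjj
            rw [hjj] at h1 h2
            by_contra hne
            rcases lt_or_gt_of_ne hne with h | h
            · have : (j + 1) * (n + 1) ≤ j' * (n + 1) := Nat.mul_le_mul_right _ h
              have h5 : (j + 1) * (n + 1) = j * (n + 1) + (n + 1) := by ring
              omega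
            · have : (j' + 1) * (n + 1) ≤ j * (n + 1) := Nat.mul_le_mul_right _ h
              have h5 : (j' + 1) * (n + 1) = j' * (n + 1) + (n + 1) := by ring
              omega
    have h1 : 2 ^ m / (n + 1) ≤ 2 * S.card := hcard.trans hbdc
    have h2 : 2 ^ m < (2 * S.card + 1) * (n + 1) := by
      rw [← Nat.div_lt_iff_lt_mul (by omega)]
      omega
    have h3 : 2 ^ m + 1 ≤ (2 * S.card + 1) * (n + 1) := h2
    have h4 : (2 : ℝ) ^ m + 1 ≤ (2 * S.card + 1) * (n + 1) := by exact_mod_cast h3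
    have hn0 : (0 : ℝ) < (n : ℝ) + 1 := by positivity
    have h5 : ((2 : ℝ) ^ m + 1) / (n + 1) ≤ 2 * S.card + 1 := by
      rw [div_le_iff₀ hn0]; exact h4
    have h6 : (((2 : ℝ) ^ m / (n + 1)) - 1) / 2 + 1 / (2 * (n + 1)) = (((2 : ℝ) ^ m + 1) / (n + 1) - 1) / 2 := by
      field_simp
      ring
    rw [h6]
    linarith
  have hn0 : (0 : ℝ) < (n : ℝ) + 1 := by positivity
  have h6 : (((2 : ℝ) ^ m / (n + 1)) - 1) / 2 + 1 / (2 * (n + 1)) = (((2 : ℝ) ^ m + 1) / (n + 1) - 1) / 2 := by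
    field_simp
    ring
  rw [h6] at main
  have h7 : ((2 : ℝ) ^ m + 1) / (n + 1) ≤ 2 * S.card + 1 := by linarith
  rw [div_le_iff₀ hn0] at h7
  have h8 : 2 ^ m + 1 ≤ (2 * S.card + 1) * (n + 1) := by exact_mod_cast h7
  omega

end Pool.Agent.Run7.h90.BGK
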